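import Mathlib

/-! Abstract structure of the adjoint Cantorval: interface and first consequences. -/

namespace R261.CD

/-- Abstract interface: `r = q/(1-q)`. -/
structure Cvl (q r : ℝ) (A : Set ℝ) : Prop where
  q0 : 0 < q
  q1 : q < 1/2
  hr : r = q + q * r
  sub : ∀ x ∈ A, 0 ≤ x ∧ x ≤ r
  zero : (0:ℝ) ∈ A
  eqn : ∀ x, x ∈ A ↔ (q * r ≤ x ∧ x ≤ q) ∨ (∃ y ∈ A, x = q^2*y) ∨ (∃ y ∈ A, x = q^2+q^2*y) ∨
    (∃ y ∈ A, x = q+q^2*y) ∨ (∃ y ∈ A, x = q+q^2+q^2*y)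
  symm : ∀ x ∈ A, r - x ∈ A
  closed : IsClosed A

variable {q r : ℝ} {A : Set ℝ}

namespace Cvl

theorem r0 (h : Cvl q r A) : 0 < r := by
  have h0 := h.q0; have h1 := h.q1; have hr := h.hr
  have : r * (1 - q) = q := by linarith
  by_contra hn
  push Not at hn
  nlinarith

theorem r1 (h : Cvl q r A) : r < 1 := by
  have h0 := h.q0; have h1 := h.q1; have hr := h.hr
  have : r * (1 - q) = q := by linarith
  by_contra hn
  push Not at hn
  nlinarith

theorem qq (h : Cvl q r A) : 0 < q^2 := pow_pos h.q0 2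

/-- all the basic inequalities and relations -/
theorem ineqs (h : Cvl q r A) : 0 < q ∧ q < 1/2 ∧ 0 < r ∧ r < 1 ∧ r = q + q*r ∧ q*r = q^2 + q^2*r ∧
    0 < q^2*r ∧ q^2*r < q^2 ∧ q^2 < q*r ∧ q*r < q ∧ q < r := by
  have h0 := h.q0; have h1 := h.q1; have hr := h.hr
  have a := h.r0; have b := h.r1; have c := h.qq
  have e : 0 < q^2*r := mul_pos c a
  have e' : q*r = q^2 + q^2*r := by
    have : q * r = q * (q + q*r) := by rw [← hr]
    rw [this]; ring
  have e2 : q*r < q := by nlinarith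
  have e3 : q^2*r < q^2 := by nlinarith
  have e4 : 0 < q * r := mul_pos h0 a
  exact ⟨h0, h1, a, b, hr, e', e, e3, by linarith, e2, by linarith⟩

theorem rmem (h : Cvl q r A) : r ∈ A := by simpa using h.symm 0 h.zero

theorem mid (h : Cvl q r A) {x : ℝ} (a : q*r ≤ x) (b : x ≤ q) : x ∈ A := (h.eqn x).2 (Or.inl ⟨a, b⟩)

theorem piece0 (h : Cvl q r A) {y : ℝ} (hy : y ≤ r) : q^2*y ∈ A ↔ y ∈ A := by
  obtain ⟨q0, q1, r0, r1, e1, e2, e3, e4, e5, e6, e7⟩ := h.ineqs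
  have qq := h.qq
  have hy2 : q^2*y ≤ q^2*r := by nlinarith
  constructor
  · intro hx
    rcases (h.eqn _).1 hx with ⟨a, b⟩ | ⟨z, hz, e⟩ | ⟨z, hz, e⟩ | ⟨z, hz, e⟩ | ⟨z, hz, e⟩
    · exfalso; linarith
    · have : y = z := by
        have := mul_left_cancel₀ qq.ne' e
        exact this
      rwa [this]
    · exfalso
      have := (h.sub z hz).1
      nlinarith
    · exfalso
      have := (h.sub z hz).1
      nlinarith
    · exfalso
      have := (h.sub z hz).1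
      nlinarith
  · intro hy'
    exact (h.eqn _).2 (Or.inr (Or.inl ⟨y, hy', rfl⟩))

theorem gap1 (h : Cvl q r A) {x : ℝ} (a : q^2*r < x) (b : x < q^2) : x ∉ A := by
  obtain ⟨q0, q1, r0, r1, e1, e2, e3, e4, e5, e6, e7⟩ := h.ineqs
  have qq := h.qq
  intro hx
  rcases (h.eqn _).1 hx with ⟨a', b'⟩ | ⟨z, hz, e⟩ | ⟨z, hz, e⟩ | ⟨z, hz, e⟩ | ⟨z, hz, e⟩
  · linarith
  · have := (h.sub z hz).2
    nlinarith
  · have := (h.sub z hz).1
    nlinarith
  · have := (h.sub z hz).1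
    nlinarith
  · have := (h.sub z hz).1
    nlinarith

theorem piece1 (h : Cvl q r A) {y : ℝ} (hy0 : 0 ≤ y) (hy : y ≤ r) : q^2+q^2*y ∈ A ↔ y ∈ A := by
  obtain ⟨q0, q1, r0, r1, e1, e2, e3, e4, e5, e6, e7⟩ := h.ineqs
  have qq := h.qq
  have hy2 : q^2*y ≤ q^2*r := by nlinarith
  have hy3 : 0 ≤ q^2*y := by nlinarith
  constructor
  · intro hx
    rcases (h.eqn _).1 hx with ⟨a, b⟩ | ⟨z, hz, e⟩ | ⟨z, hz, e⟩ | ⟨z, hz, e⟩ | ⟨z, hz, e⟩
    · have : y = r := by
        apply le_antisymm hy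
        by_contra hc
        push Not at hc
        have : q^2*y < q^2*r := by nlinarith
        linarith
      rw [this]; exact h.rmem
    · exfalso
      have := (h.sub z hz).2
      nlinarith
    · have : y = z := by
        have : q^2*y = q^2*z := by linarith
        exact mul_left_cancel₀ qq.ne' this
      rwa [this]
    · exfalso
      have := (h.sub z hz).1
      nlinarith
    · exfalso
      have := (h.sub z hz).1
      nlinarith
  · intro hy'
    exact (h.eqn _).2 (Or.inr (Or.inr (Or.inl ⟨y, hy', rfl⟩)))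

/-- translation by `q` -/
theorem trq (h : Cvl q r A) {y : ℝ} (hy0 : 0 ≤ y) (hy : y ≤ q*r) : q + y ∈ A ↔ y ∈ A := by
  obtain ⟨q0, q1, r0, r1, e1, e2, e3, e4, e5, e6, e7⟩ := h.ineqs
  have qq := h.qq
  constructor
  · intro hx
    rcases (h.eqn _).1 hx with ⟨a, b⟩ | ⟨z, hz, e⟩ | ⟨z, hz, e⟩ | ⟨z, hz, e⟩ | ⟨z, hz, e⟩
    · have : y = 0 := by linarith
      rw [this]; exact h.zero
    · exfalso
      have := (h.sub z hz).2
      nlinarith
    · exfalso
      have := (h.sub z hz).2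
      nlinarith
    · exact (h.eqn _).2 (Or.inr (Or.inl ⟨z, hz, by linarith⟩))
    · exact (h.eqn _).2 (Or.inr (Or.inr (Or.inl ⟨z, hz, by linarith⟩)))
  · intro hx
    rcases (h.eqn _).1 hx with ⟨a, b⟩ | ⟨z, hz, e⟩ | ⟨z, hz, e⟩ | ⟨z, hz, e⟩ | ⟨z, hz, e⟩
    · have : q + y = r := by linarith
      rw [this]; exact h.rmem
    · exact (h.eqn _).2 (Or.inr (Or.inr (Or.inr (Or.inl ⟨z, hz, by linarith⟩))))
    · exact (h.eqn _).2 (Or.inr (Or.inr (Or.inr (Or.inr ⟨z, hz, by linarith⟩))))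
    · exfalso
      have := (h.sub z hz).1
      nlinarith
    · exfalso
      have := (h.sub z hz).1
      nlinarith

theorem qrmem (h : Cvl q r A) : q*r ∈ A := by
  obtain ⟨q0, q1, r0, r1, e1, e2, e3, e4, e5, e6, e7⟩ := h.ineqs
  exact h.mid le_rfl e6.le

theorem symr1 (h : Cvl q r A) {x : ℝ} (hx : x ∈ A) (hx1 : x ≤ q*r) : q*r - x ∈ A := by
  obtain ⟨q0, q1, r0, r1, e1, e2, e3, e4, e5, e6, e7⟩ := h.ineqs
  have qq := h.qq
  rcases (h.eqn _).1 hx with ⟨a, b⟩ | ⟨z, hz, e⟩ | ⟨z, hz, e⟩ | ⟨z, hz, e⟩ | ⟨z, hz, e⟩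
  · have : q*r - x = 0 := by linarith
    rw [this]; exact h.zero
  · exact (h.eqn _).2 (Or.inr (Or.inr (Or.inl ⟨r - z, h.symm z hz, by rw [e, e2]; ring⟩)))
  · exact (h.eqn _).2 (Or.inr (Or.inl ⟨r - z, h.symm z hz, by rw [e, e2]; ring⟩))
  · exfalso
    have := (h.sub z hz).1
    nlinarith
  · exfalso
    have := (h.sub z hz).1
    nlinarith

theorem symr1' (h : Cvl q r A) {x : ℝ} (hx0 : 0 ≤ x) (hx1 : x ≤ q*r) : q*r - x ∈ A ↔ x ∈ A := by
  constructor
  · intro hx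
    have := h.symr1 hx (by linarith)
    simpa using this
  · intro hx
    exact h.symr1 hx hx1

/-- unified piece lemma -/
theorem piece (h : Cvl q r A) {c y : ℝ} (hc : c = 0 ∨ c = q^2 ∨ c = q ∨ c = q + q^2)
    (hy0 : 0 ≤ y) (hy : y ≤ r) : c + q^2*y ∈ A ↔ y ∈ A := by
  obtain ⟨q0, q1, r0, r1, e1, e2, e3, e4, e5, e6, e7⟩ := h.ineqs
  have qq := h.qq
  have hy2 : q^2*y ≤ q^2*r := by nlinarith
  have hy3 : 0 ≤ q^2*y := by nlinarith
  rcases hc with rfl | rfl | rfl | rfl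
  · rw [zero_add]; exact h.piece0 hy
  · exact h.piece1 hy0 hy
  · rw [h.trq hy3 (by linarith)]; exact h.piece0 hy
  · rw [add_assoc, h.trq (by linarith) (by linarith)]; exact h.piece1 hy0 hy

theorem gap2 (h : Cvl q r A) {x : ℝ} (a : q + q^2*r < x) (b : x < q + q^2) : x ∉ A := by
  obtain ⟨q0, q1, r0, r1, e1, e2, e3, e4, e5, e6, e7⟩ := h.ineqs
  have := h.trq (y := x - q) (by linarith) (by linarith)
  intro hx
  have h2 : x - q ∈ A := this.1 (by simpa using hx)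
  exact h.gap1 (by linarith) (by linarith) h2

theorem I0 (h : Cvl q r A) {e : ℝ} (he : 0 < e) : ∃ x, 0 < x ∧ x < e ∧ x < q*r ∧ x ∉ A := by
  obtain ⟨q0, q1, r0, r1, e1, e2, e3, e4, e5, e6, e7⟩ := h.ineqs
  have qq := h.qq
  set x0 := (q^2*r + q^2)/2 with hx0
  have hx0A : x0 ∉ A := h.gap1 (by rw [hx0]; linarith) (by rw [hx0]; linarith)
  have hx0p : 0 < x0 := by rw [hx0]; linarith
  have hx0q : x0 < q^2 := by rw [hx0]; linarith
  have key : ∀ k : ℕ, (q^2)^k * x0 ∉ A ∧ (q^2)^k*x0 ≤ x0 := by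
    intro k
    induction k with
    | zero => simpa using hx0A
    | succ k ih =>
      have h1 : (q^2)^(k+1) * x0 = q^2 * ((q^2)^k*x0) := by ring
      have h0 : 0 < (q^2)^k*x0 := mul_pos (pow_pos qq k) hx0p
      have q21 : q^2 < 1 := by nlinarith
      rw [h1]
      constructor
      · rw [h.piece0 (by linarith [ih.2])]
        exact ih.1
      · nlinarith [ih.2]
  obtain ⟨k, hk⟩ := exists_pow_lt_of_lt_one (div_pos he hx0p) (show q^2 < 1 by nlinarith)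
  refine ⟨(q^2)^k*x0, mul_pos (pow_pos qq k) hx0p, ?_, by linarith [(key k).2], (key k).1⟩
  rwa [lt_div_iff₀ hx0p] at hk

/-- non-members left of `q*r` -/
theorem I0a (h : Cvl q r A) {e : ℝ} (he : e < q*r) : ∃ x, e < x ∧ x < q*r ∧ x ∉ A := by
  obtain ⟨x, hx0, hxe, hxr, hxA⟩ := h.I0 (sub_pos.2 he)
  refine ⟨q*r - x, by linarith, by linarith, ?_⟩
  rw [h.symr1' hx0.le hxr.le]
  exact hxA

/-- non-members right of `q` -/
theorem I0b (h : Cvl q r A) {e : ℝ} (he : q < e) : ∃ x, q < x ∧ x < e ∧ x ∉ A := by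
  obtain ⟨x, hx0, hxe, hxr, hxA⟩ := h.I0 (sub_pos.2 he)
  refine ⟨q + x, by linarith, by linarith, ?_⟩
  rw [h.trq hx0.le hxr.le]
  exact hxA

/-- non-members left of `r` -/
theorem I0c (h : Cvl q r A) {e : ℝ} (he : e < r) : ∃ x, e < x ∧ x < r ∧ x ∉ A := by
  obtain ⟨x, hx0, hxe, hxr, hxA⟩ := h.I0 (sub_pos.2 he)
  refine ⟨r - x, by linarith, by linarith, ?_⟩
  intro hc
  apply hxA
  have := h.symm _ hc
  simpa using this

/-- location of an interval inside `A` -/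
theorem loc (h : Cvl q r A) {a b : ℝ} (hab : a < b) (hA : ∀ x, a < x → x < b → x ∈ A) :
    (q*r ≤ a ∧ b ≤ q) ∨ (0 ≤ a ∧ b ≤ q^2*r) ∨ (q^2 ≤ a ∧ b ≤ q*r) ∨ (q ≤ a ∧ b ≤ q + q^2*r) ∨
    (q + q^2 ≤ a ∧ b ≤ r) := by
  obtain ⟨q0, q1, r0, r1, e1, e2, e3, e4, e5, e6, e7⟩ := h.ineqs
  have h0 : 0 ≤ a := by
    by_contra hc
    push Not at hc
    obtain ⟨x, hx1, hx2⟩ := exists_between (show a < min b 0 from lt_min hab hc)
    have := (h.sub x (hA x hx1 (lt_of_lt_of_le hx2 (min_le_left _ _)))).1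
    have := lt_of_lt_of_le hx2 (min_le_right _ _)
    linarith
  have h1 : b ≤ r := by
    by_contra hc
    push Not at hc
    obtain ⟨x, hx1, hx2⟩ := exists_between (show max a r < b from max_lt hab hc)
    have := (h.sub x (hA x (lt_of_le_of_lt (le_max_left _ _) hx1) hx2)).2
    have := lt_of_le_of_lt (le_max_right _ _) hx1
    linarith
  have g1 : q^2 ≤ a ∨ b ≤ q^2*r := by
    by_contra hc
    push Not at hc
    obtain ⟨x, hx1, hx2⟩ := exists_between (show max a (q^2*r) < min b (q^2) from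
      max_lt (lt_min hab hc.1) (lt_min hc.2 e4))
    exact h.gap1 (lt_of_le_of_lt (le_max_right _ _) hx1) (lt_of_lt_of_le hx2 (min_le_right _ _))
      (hA x (lt_of_le_of_lt (le_max_left _ _) hx1) (lt_of_lt_of_le hx2 (min_le_left _ _)))
  have g2 : q + q^2 ≤ a ∨ b ≤ q + q^2*r := by
    by_contra hc
    push Not at hc
    obtain ⟨x, hx1, hx2⟩ := exists_between (show max a (q + q^2*r) < min b (q + q^2) from
      max_lt (lt_min hab hc.1) (lt_min hc.2 (by linarith)))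
    exact h.gap2 (lt_of_le_of_lt (le_max_right _ _) hx1) (lt_of_lt_of_le hx2 (min_le_right _ _))
      (hA x (lt_of_le_of_lt (le_max_left _ _) hx1) (lt_of_lt_of_le hx2 (min_le_left _ _)))
  have g3 : q*r ≤ a ∨ b ≤ q*r := by
    by_contra hc
    push Not at hc
    obtain ⟨x, hx1, hx2, hx3⟩ := h.I0a hc.1
    exact hx3 (hA x hx1 (by linarith [hc.2]))
  have g4 : q ≤ a ∨ b ≤ q := by
    by_contra hc
    push Not at hc
    obtain ⟨x, hx1, hx2, hx3⟩ := h.I0b hc.2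
    exact hx3 (hA x (by linarith [hc.1]) hx2)
  rcases g1 with g1 | g1
  · rcases g3 with g3 | g3
    · rcases g4 with g4 | g4
      · rcases g2 with g2 | g2
        · exact Or.inr (Or.inr (Or.inr (Or.inr ⟨g2, h1⟩)))
        · exact Or.inr (Or.inr (Or.inr (Or.inl ⟨g4, g2⟩)))
      · exact Or.inl ⟨g3, g4⟩
    · exact Or.inr (Or.inr (Or.inl ⟨g1, g3⟩))
  · exact Or.inr (Or.inl ⟨h0, g1⟩)

theorem scaleIn (h : Cvl q r A) {a b c : ℝ} (hc : c = 0 ∨ c = q^2 ∨ c = q ∨ c = q + q^2)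
    (ha : c ≤ a) (hb : b ≤ c + q^2*r) (hA : ∀ x, a < x → x < b → x ∈ A) :
    ∀ y, (a-c)/q^2 < y → y < (b-c)/q^2 → y ∈ A := by
  have qq := h.qq
  intro y hy1 hy2
  rw [div_lt_iff₀ qq] at hy1
  rw [lt_div_iff₀ qq] at hy2
  have h1 : c + q^2*y ∈ A := hA _ (by linarith) (by linarith)
  refine (h.piece hc ?_ ?_).1 h1
  · by_contra hn
    push Not at hn
    nlinarith
  · by_contra hn
    push Not at hn
    nlinarith

theorem comp0 (h : Cvl q r A) (n : ℕ) : ∀ a b : ℝ, a < b → (∀ x, a < x → x < b → x ∈ A) →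
    b - a ≤ q - q*r ∨ b - a ≤ (q^2)^n * r := by
  obtain ⟨q0, q1, r0, r1, e1, e2, e3, e4, e5, e6, e7⟩ := h.ineqs
  have qq := h.qq
  induction n with
  | zero =>
    intro a b hab hA
    right
    rcases h.loc hab hA with ⟨x, y⟩ | ⟨x, y⟩ | ⟨x, y⟩ | ⟨x, y⟩ | ⟨x, y⟩ <;> simp <;> linarith
  | succ n ih =>
    intro a b hab hA
    have key : ∀ c : ℝ, (c = 0 ∨ c = q^2 ∨ c = q ∨ c = q + q^2) → c ≤ a → b ≤ c + q^2*r →
        b - a ≤ q - q*r ∨ b - a ≤ (q^2)^(n+1) * r := by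
      intro c hc ha hb
      have q21 : q^2 < 1 := by nlinarith
      have := ih ((a-c)/q^2) ((b-c)/q^2) (by
        apply div_lt_div_of_pos_right _ qq; linarith) (h.scaleIn hc ha hb hA)
      have e : (b-c)/q^2 - (a-c)/q^2 = (b-a)/q^2 := by ring
      rw [e, div_le_iff₀ qq, div_le_iff₀ qq] at this
      rcases this with h1 | h1
      · left; nlinarith
      · right; rw [pow_succ]; linarith
    rcases h.loc hab hA with ⟨x, y⟩ | ⟨x, y⟩ | ⟨x, y⟩ | ⟨x, y⟩ | ⟨x, y⟩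
    · left; linarith
    · exact key 0 (by simp) x (by linarith)
    · exact key (q^2) (by simp) x (by linarith)
    · exact key q (by simp) x (by linarith)
    · exact key (q+q^2) (by simp) x (by linarith)

theorem comp1 (h : Cvl q r A) {a b : ℝ} (hab : a < b) (hA : ∀ x, a < x → x < b → x ∈ A) :
    b - a ≤ q - q*r := by
  obtain ⟨q0, q1, r0, r1, e1, e2, e3, e4, e5, e6, e7⟩ := h.ineqs
  by_contra hc
  have hba : 0 < b - a := by linarith
  obtain ⟨n, hn⟩ := exists_pow_lt_of_lt_one (div_pos hba r0) (show q^2 < 1 by nlinarith)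
  rw [lt_div_iff₀ r0] at hn
  rcases h.comp0 n a b hab hA with h1 | h1
  · exact hc h1
  · linarith

/-- component lemma -/
theorem comp (h : Cvl q r A) {a b : ℝ} (hab : a < b) (hA : ∀ x, a < x → x < b → x ∈ A) :
    (q*r ≤ a ∧ b ≤ q) ∨ (b - a ≤ q^2*(q - q*r) ∧ (b ≤ q*r ∨ q ≤ a)) := by
  obtain ⟨q0, q1, r0, r1, e1, e2, e3, e4, e5, e6, e7⟩ := h.ineqs
  have qq := h.qq
  have key : ∀ c : ℝ, (c = 0 ∨ c = q^2 ∨ c = q ∨ c = q + q^2) → c ≤ a → b ≤ c + q^2*r →
      b - a ≤ q^2*(q - q*r) := by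
    intro c hc ha hb
    have := h.comp1 (a := (a-c)/q^2) (b := (b-c)/q^2) (by
        apply div_lt_div_of_pos_right _ qq; linarith) (h.scaleIn hc ha hb hA)
    have e : (b-c)/q^2 - (a-c)/q^2 = (b-a)/q^2 := by ring
    rw [e, div_le_iff₀ qq] at this
    linarith
  rcases h.loc hab hA with ⟨x, y⟩ | ⟨x, y⟩ | ⟨x, y⟩ | ⟨x, y⟩ | ⟨x, y⟩
  · left; exact ⟨x, y⟩
  · right; exact ⟨key 0 (by simp) x (by linarith), Or.inl (by linarith)⟩
  · right; exact ⟨key (q^2) (by simp) x (by linarith), Or.inl (by linarith)⟩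
  · right; exact ⟨key q (by simp) x (by linarith), Or.inr (by linarith)⟩
  · right; exact ⟨key (q+q^2) (by simp) x (by linarith), Or.inr (by linarith)⟩

/-- scaling of free intervals -/
theorem scaleOut (h : Cvl q r A) {a b c : ℝ} (hc : c = 0 ∨ c = q^2 ∨ c = q ∨ c = q + q^2)
    (ha : c ≤ a) (hb : b ≤ c + q^2*r) (hA : ∀ x, a < x → x < b → x ∉ A) :
    ∀ y, (a-c)/q^2 < y → y < (b-c)/q^2 → y ∉ A := by
  have qq := h.qq
  intro y hy1 hy2
  rw [div_lt_iff₀ qq] at hy1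
  rw [lt_div_iff₀ qq] at hy2
  have h1 : c + q^2*y ∉ A := hA _ (by linarith) (by linarith)
  rwa [h.piece hc ?_ ?_] at h1
  · by_contra hn
    push Not at hn
    nlinarith
  · by_contra hn
    push Not at hn
    nlinarith

theorem piecemem (h : Cvl q r A) : q^2*r ∈ A ∧ q^2 ∈ A ∧ q ∈ A ∧ q + q^2*r ∈ A ∧ q + q^2 ∈ A := by
  obtain ⟨q0, q1, r0, r1, e1, e2, e3, e4, e5, e6, e7⟩ := h.ineqs
  refine ⟨(h.piece0 le_rfl).2 h.rmem, ?_, h.mid e6.le le_rfl, ?_, ?_⟩
  · simpa using (h.piece1 le_rfl r0.le).2 h.zero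
  · exact (h.piece (c := q) (by simp) r0.le le_rfl).2 h.rmem
  · simpa using (h.piece (c := q+q^2) (by simp) le_rfl r0.le).2 h.zero

theorem free0 (h : Cvl q r A) (n : ℕ) : ∀ a b : ℝ, 0 ≤ a → a < b → b ≤ r →
    (∀ x, a < x → x < b → x ∉ A) → b - a ≤ q*(q - q*r) ∨ b - a ≤ (q^2)^n * r := by
  obtain ⟨q0, q1, r0, r1, e1, e2, e3, e4, e5, e6, e7⟩ := h.ineqs
  have qq := h.qq
  have ql : q*(q-q*r) = q^2 - q^2*r := by ring
  induction n with
  | zero =>
    intro a b ha hab hb hA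
    right
    simp; linarith
  | succ n ih =>
    intro a b ha0 hab hb0 hA
    have key : ∀ c : ℝ, (c = 0 ∨ c = q^2 ∨ c = q ∨ c = q + q^2) → c ≤ a → b ≤ c + q^2*r →
        b - a ≤ q*(q - q*r) ∨ b - a ≤ (q^2)^(n+1) * r := by
      intro c hc ha hb
      have q21 : q^2 < 1 := by nlinarith
      have h1 : (a-c)/q^2 < (b-c)/q^2 := by
        apply div_lt_div_of_pos_right _ qq; linarith
      have := ih ((a-c)/q^2) ((b-c)/q^2) (div_nonneg (by linarith) qq.le) h1 (by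
        rw [div_le_iff₀ qq]; linarith) (h.scaleOut hc ha hb hA)
      have e : (b-c)/q^2 - (a-c)/q^2 = (b-a)/q^2 := by ring
      rw [e, div_le_iff₀ qq, div_le_iff₀ qq] at this
      rcases this with h1 | h1
      · left; nlinarith
      · right; rw [pow_succ]; linarith
    have pt : ∀ x ∈ A, x ≤ a ∨ b ≤ x := by
      intro x hx
      by_contra hc
      push Not at hc
      exact hA x hc.1 hc.2 hx
    obtain ⟨m1, m2, m3, m4, m5⟩ := h.piecemem
    rcases pt _ m2 with g1 | g1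
    · rcases pt _ h.qrmem with g2 | g2
      · rcases pt _ m3 with g3 | g3
        · rcases pt _ m5 with g4 | g4
          · exact key (q+q^2) (by simp) g4 (by linarith)
          · rcases pt _ m4 with g5 | g5
            · left; linarith
            · exact key q (by simp) g3 g5
        · exfalso
          obtain ⟨x, hx1, hx2⟩ := exists_between hab
          exact hA x hx1 hx2 (h.mid (by linarith) (by linarith))
      · exact key (q^2) (by simp) g1 (by linarith)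
    · rcases pt _ m1 with g5 | g5
      · left; linarith
      · exact key 0 (by simp) ha0 (by linarith)

theorem free (h : Cvl q r A) {a b : ℝ} (ha : 0 ≤ a) (hb : b ≤ r)
    (hA : ∀ x, a < x → x < b → x ∉ A) : b - a ≤ q*(q-q*r) := by
  obtain ⟨q0, q1, r0, r1, e1, e2, e3, e4, e5, e6, e7⟩ := h.ineqs
  have hl : 0 < q*(q-q*r) := mul_pos q0 (by linarith)
  by_contra hc
  have hba : 0 < b - a := by linarith
  obtain ⟨n, hn⟩ := exists_pow_lt_of_lt_one (div_pos hba r0) (show q^2 < 1 by nlinarith)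
  rw [lt_div_iff₀ r0] at hn
  rcases h.free0 n a b ha (by linarith) hb hA with h1 | h1
  · exact hc h1
  · linarith

theorem free' (h : Cvl q r A) {a b c : ℝ} (hc : c = 0 ∨ c = q^2 ∨ c = q ∨ c = q + q^2)
    (ha : c ≤ a) (hb : b ≤ c + q^2*r) (hA : ∀ x, a < x → x < b → x ∉ A) :
    b - a ≤ q^2*(q*(q-q*r)) := by
  have qq := h.qq
  have := h.free (a := (a-c)/q^2) (b := (b-c)/q^2) (div_nonneg (by linarith) qq.le) (by
    rw [div_le_iff₀ qq]; linarith) (h.scaleOut hc ha hb hA)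
  have e : (b-c)/q^2 - (a-c)/q^2 = (b-a)/q^2 := by ring
  rw [e, div_le_iff₀ qq] at this
  linarith

end Cvl

end R261.CD
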