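import Mathlib

/-! Definitions for MP_c27d8d_an: achievement set, gaps, adjoint Cantorval, centre of distances. -/

namespace R261.CD

/-- The digit `0` or `1` as a real number. -/
def dig (b : Bool) : ℝ := if b then 1 else 0

/-- The achievement set `E_q` of the series `∑_{n ≥ 1} q^n`. -/
def E (q : ℝ) : Set ℝ := {x | ∃ ε : ℕ → Bool, x = ∑' n : ℕ, dig (ε n) * q ^ (n + 1)}

/-- `r_m = q^(m+1) / (1 - q)`. -/
noncomputable def rr (q : ℝ) (m : ℕ) : ℝ := q ^ (m + 1) / (1 - q)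

/-- `s(ε)` for a word `ε` of length `m`. -/
def ss (q : ℝ) {m : ℕ} (ε : Fin m → Bool) : ℝ := ∑ i : Fin m, dig (ε i) * q ^ (i.val + 1)

/-- `G_m`, the union of the gaps removed at step `m ≥ 1`. -/
def G (q : ℝ) (m : ℕ) : Set ℝ :=
  ⋃ ε : Fin (m - 1) → Bool, Set.Ioo (ss q ε + rr q m) (ss q ε + q ^ m)

/-- The adjoint Cantorval: the gaps of odd steps are put back. -/
def Ehat (q : ℝ) : Set ℝ := E q ∪ ⋃ (m : ℕ) (_ : Odd m), G q m

/-- The centre of distances of a set of reals. -/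
def centre (A : Set ℝ) : Set ℝ := {α | 0 ≤ α ∧ ∀ x ∈ A, ∃ y ∈ A, |x - y| = α}

end R261.CD
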