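import Pool.Agent.R261.CD.Defs
import Pool.Agent.R261.CD.Basic

/-! The adjoint Cantorval satisfies the abstract interface. -/

namespace R261.CD

open Finset

variable {q : ℝ}

/-- gaps indexed from `0` -/
def GG (q : ℝ) (n : ℕ) : Set ℝ :=
  ⋃ ε : Fin n → Bool, Set.Ioo (ss q ε + rr q (n+1)) (ss q ε + q ^ (n+1))

theorem dig_nonneg (b : Bool) : 0 ≤ dig b := by cases b <;> simp [dig]

theorem dig_le (b : Bool) : dig b ≤ 1 := by cases b <;> simp [dig]

theorem mem_GG {n : ℕ} {x : ℝ} : x ∈ GG q n ↔ ∃ ε : Fin n → Bool,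
    ss q ε + rr q (n+1) < x ∧ x < ss q ε + q ^ (n+1) := by
  simp [GG]

theorem mem_Ehat {x : ℝ} : x ∈ Ehat q ↔ x ∈ E q ∨ ∃ k : ℕ, x ∈ GG q (2*k) := by
  unfold Ehat
  simp only [Set.mem_union, Set.mem_iUnion]
  constructor
  · rintro (h | ⟨m, hm, h⟩)
    · exact Or.inl h
    · right
      obtain ⟨k, rfl⟩ := hm
      exact ⟨k, h⟩
  · rintro (h | ⟨k, h⟩)
    · exact Or.inl h
    · right
      exact ⟨2*k+1, ⟨k, rfl⟩, h⟩

theorem GG_zero {x : ℝ} : x ∈ GG q 0 ↔ rr q 1 < x ∧ x < q := by
  rw [mem_GG]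
  simp [ss]

theorem ss_succ {n : ℕ} (ε : Fin (n+1) → Bool) :
    ss q ε = dig (ε 0) * q + q * ss q (fun i => ε i.succ) := by
  unfold ss
  rw [Fin.sum_univ_succ, Finset.mul_sum]
  congr 1
  · simp
  · apply Finset.sum_congr rfl
    intro i _
    simp only [Fin.val_succ]
    ring

theorem rr_succ (n : ℕ) : rr q (n+1) = q * rr q n := by
  unfold rr
  ring

theorem GG_succ (hq : 0 < q) {n : ℕ} {x : ℝ} : x ∈ GG q (n+1) ↔ ∃ b : Bool, ∃ y ∈ GG q n, x = dig b * q + q * y := by
  rw [mem_GG]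
  constructor
  · rintro ⟨ε, h1, h2⟩
    refine ⟨ε 0, (x - dig (ε 0) * q)/q, ?_, by field_simp; ring⟩
    rw [mem_GG]
    refine ⟨fun i => ε i.succ, ?_, ?_⟩
    · rw [ss_succ, rr_succ] at h1
      rw [lt_div_iff₀ hq]
      linarith
    · rw [ss_succ] at h2
      rw [div_lt_iff₀ hq]
      have : q ^ (n+1+1) = q ^ (n+1) * q := pow_succ _ _
      linarith
  · rintro ⟨b, y, hy, rfl⟩
    rw [mem_GG] at hy
    obtain ⟨ε, h1, h2⟩ := hy
    refine ⟨Fin.cons b ε, ?_, ?_⟩
    · rw [ss_succ, rr_succ]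
      simp only [Fin.cons_zero, Fin.cons_succ]
      nlinarith
    · rw [ss_succ]
      simp only [Fin.cons_zero, Fin.cons_succ]
      have : q ^ (n+1+1) = q ^ (n+1) * q := pow_succ _ _
      rw [this]
      nlinarith

theorem summ (h0 : 0 < q) (h1 : q < 1/2) (ε : ℕ → Bool) : Summable (fun n : ℕ => dig (ε n) * q ^ (n+1)) := by
  have hs : Summable (fun n : ℕ => q ^ (n+1)) := by
    have := (summable_geometric_of_lt_one h0.le (by linarith : q < 1)).mul_left q
    refine this.congr ?_
    intro n; ring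
  refine Summable.of_nonneg_of_le (fun n => ?_) (fun n => ?_) hs
  · exact mul_nonneg (dig_nonneg _) (pow_nonneg h0.le _)
  · have := dig_le (ε n)
    have h3 : 0 < q ^ (n+1) := pow_pos h0 _
    nlinarith

theorem sum_all (h0 : 0 < q) (h1 : q < 1/2) : ∑' n : ℕ, q ^ (n+1) = q/(1-q) := by
  have : (fun n : ℕ => q ^ (n+1)) = fun n => q * q ^ n := by
    ext n; ring
  rw [this, tsum_mul_left, tsum_geometric_of_lt_one h0.le (by linarith)]
  field_simp

theorem E_eqn (h0 : 0 < q) (h1 : q < 1/2) {x : ℝ} :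
    x ∈ E q ↔ ∃ b : Bool, ∃ y ∈ E q, x = dig b * q + q * y := by
  constructor
  · rintro ⟨ε, rfl⟩
    refine ⟨ε 0, ∑' n : ℕ, dig (ε (n+1)) * q ^ (n+1), ⟨fun n => ε (n+1), rfl⟩, ?_⟩
    rw [(summ h0 h1 ε).tsum_eq_zero_add, ← tsum_mul_left]
    congr 1
    · simp
    · apply tsum_congr
      intro n; ring
  · rintro ⟨b, y, ⟨ε, rfl⟩, rfl⟩
    set δ : ℕ → Bool := fun n => Nat.casesOn n b ε with hδ
    refine ⟨δ, ?_⟩
    rw [(summ h0 h1 δ).tsum_eq_zero_add, ← tsum_mul_left]
    congr 1
    · simp [hδ]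
    · apply tsum_congr
      intro n
      have : δ (n+1) = ε n := rfl
      rw [this]; ring

theorem E_sub (h0 : 0 < q) (h1 : q < 1/2) {x : ℝ} (hx : x ∈ E q) : 0 ≤ x ∧ x ≤ q/(1-q) := by
  obtain ⟨ε, rfl⟩ := hx
  constructor
  · exact tsum_nonneg fun n => mul_nonneg (dig_nonneg _) (pow_nonneg h0.le _)
  · rw [← sum_all h0 h1]
    have hs : Summable (fun n : ℕ => q ^ (n+1)) := by
      have := (summable_geometric_of_lt_one h0.le (by linarith : q < 1)).mul_left q
      refine this.congr ?_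
      intro n; ring
    refine (summ h0 h1 ε).tsum_le_tsum (fun n => ?_) hs
    have := dig_le (ε n)
    have h3 : 0 < q ^ (n+1) := pow_pos h0 _
    nlinarith

theorem rel (h1 : q < 1/2) : q/(1-q) = q + q*(q/(1-q)) := by
  have : 1 - q ≠ 0 := by linarith
  field_simp
  ring

theorem rr1 : rr q 1 = q*(q/(1-q)) := by
  unfold rr; ring

theorem GG_sub (h0 : 0 < q) (h1 : q < 1/2) (n : ℕ) : ∀ x ∈ GG q n, 0 ≤ x ∧ x ≤ q/(1-q) := by
  have hr := rel h1
  have hrp : 0 < q/(1-q) := div_pos h0 (by linarith)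
  induction n with
  | zero =>
    intro x hx
    rw [GG_zero, rr1] at hx
    have : 0 < q*(q/(1-q)) := by positivity
    constructor <;> linarith [hx.1, hx.2]
  | succ n ih =>
    intro x hx
    rw [GG_succ h0] at hx
    obtain ⟨b, y, hy, rfl⟩ := hx
    have hy' := ih y hy
    have d0 := dig_nonneg b
    have d1 := dig_le b
    have e1 : 0 ≤ q*y := mul_nonneg h0.le hy'.1
    have e2 : q*y ≤ q*(q/(1-q)) := mul_le_mul_of_nonneg_left hy'.2 h0.le
    constructor
    · positivity
    · nlinarith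

theorem E_symm (h0 : 0 < q) (h1 : q < 1/2) {x : ℝ} (hx : x ∈ E q) : q/(1-q) - x ∈ E q := by
  obtain ⟨ε, rfl⟩ := hx
  refine ⟨fun n => !(ε n), ?_⟩
  have hs : Summable (fun n : ℕ => q ^ (n+1)) := by
    have := (summable_geometric_of_lt_one h0.le (by linarith : q < 1)).mul_left q
    refine this.congr ?_
    intro n; ring
  rw [← sum_all h0 h1, ← hs.tsum_sub (summ h0 h1 ε)]
  apply tsum_congr
  intro n
  have : dig (!(ε n)) = 1 - dig (ε n) := by cases ε n <;> simp [dig]
  show q ^ (n+1) - dig (ε n) * q ^ (n+1) = dig (!(ε n)) * q ^ (n+1)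
  rw [this]; ring

theorem GG_symm (h0 : 0 < q) (h1 : q < 1/2) (n : ℕ) : ∀ x ∈ GG q n, q/(1-q) - x ∈ GG q n := by
  have hr := rel h1
  induction n with
  | zero =>
    intro x hx
    rw [GG_zero, rr1] at hx ⊢
    constructor <;> linarith [hx.1, hx.2]
  | succ n ih =>
    intro x hx
    rw [GG_succ h0] at hx ⊢
    obtain ⟨b, y, hy, rfl⟩ := hx
    refine ⟨!b, _, ih y hy, ?_⟩
    have : dig (!b) = 1 - dig b := by cases b <;> simp [dig]
    rw [this]
    linarith

theorem img_inj (h0 : 0 < q) (h1 : q < 1/2) {b b' : Bool} {y y' : ℝ} (hy : 0 ≤ y ∧ y ≤ q/(1-q))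
    (hy' : 0 ≤ y' ∧ y' ≤ q/(1-q)) (h : dig b * q + q * y = dig b' * q + q * y') : b = b' ∧ y = y' := by
  have hr := rel h1
  have hr1 : q/(1-q) < 1 := by rw [div_lt_one (by linarith)]; linarith
  cases b <;> cases b' <;> simp [dig] at h ⊢
  · rcases h with h | h
    · exact h
    · linarith
  · nlinarith
  · nlinarith
  · rcases h with h | h
    · exact h
    · linarith

theorem img_GG0 (h0 : 0 < q) (h1 : q < 1/2) {b : Bool} {y : ℝ} (hy : 0 ≤ y ∧ y ≤ q/(1-q)) :
    dig b * q + q * y ∉ GG q 0 := by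
  have hr := rel h1
  rw [GG_zero, rr1]
  rintro ⟨h2, h3⟩
  have e1 : 0 ≤ q*y := mul_nonneg h0.le hy.1
  have e2 : q*y ≤ q*(q/(1-q)) := mul_le_mul_of_nonneg_left hy.2 h0.le
  cases b <;> simp [dig] at h2 h3 <;> nlinarith

theorem disjE (h0 : 0 < q) (h1 : q < 1/2) (n : ℕ) : ∀ x ∈ E q, x ∉ GG q n := by
  induction n with
  | zero =>
    intro x hx
    rw [E_eqn h0 h1] at hx
    obtain ⟨b, y, hy, rfl⟩ := hx
    exact img_GG0 h0 h1 (E_sub h0 h1 hy)
  | succ n ih =>
    intro x hx hx'
    rw [E_eqn h0 h1] at hx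
    obtain ⟨b, y, hy, rfl⟩ := hx
    rw [GG_succ h0] at hx'
    obtain ⟨b', y', hy', e⟩ := hx'
    obtain ⟨rfl, rfl⟩ := img_inj h0 h1 (E_sub h0 h1 hy) (GG_sub h0 h1 n y' hy') e
    exact ih y hy hy'

theorem disjG (h0 : 0 < q) (h1 : q < 1/2) (n : ℕ) : ∀ m, n ≠ m → ∀ x ∈ GG q n, x ∉ GG q m := by
  induction n with
  | zero =>
    intro m hm x hx hx'
    obtain ⟨m', rfl⟩ : ∃ m', m = m' + 1 := ⟨m - 1, by omega⟩
    rw [GG_succ h0] at hx'
    obtain ⟨b', y', hy', rfl⟩ := hx'
    exact img_GG0 h0 h1 (GG_sub h0 h1 m' y' hy') hx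
  | succ n ih =>
    intro m hm x hx hx'
    rw [GG_succ h0] at hx
    obtain ⟨b, y, hy, rfl⟩ := hx
    cases m with
    | zero => exact img_GG0 h0 h1 (GG_sub h0 h1 n y hy) hx'
    | succ m' =>
      rw [GG_succ h0] at hx'
      obtain ⟨b', y', hy', e⟩ := hx'
      obtain ⟨rfl, rfl⟩ := img_inj h0 h1 (GG_sub h0 h1 n y hy) (GG_sub h0 h1 m' y' hy') e
      exact ih m' (by omega) y hy hy'

/-- the expansion map -/
noncomputable def stepx (q x : ℝ) : ℝ := if x ≤ q*(q/(1-q)) then x/q else (x-q)/q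

/-- covering -/
theorem cover (h0 : 0 < q) (h1 : q < 1/2) {x : ℝ} (hx : 0 ≤ x ∧ x ≤ q/(1-q))
    (hG : ∀ n, x ∉ GG q n) : x ∈ E q := by
  have hr := rel h1
  set xs : ℕ → ℝ := fun n => (stepx q)^[n] x with hxs
  have hstep : ∀ n, xs (n+1) = stepx q (xs n) := by
    intro n; simp only [hxs, Function.iterate_succ_apply']
  have key : ∀ n, (0 ≤ xs n ∧ xs n ≤ q/(1-q)) ∧ ∀ m, xs n ∉ GG q m := by
    intro n
    induction n with
    | zero => exact ⟨hx, hG⟩
    | succ n ih =>
      obtain ⟨⟨a, b⟩, c⟩ := ih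
      rw [hstep]
      unfold stepx
      split_ifs with h2
      · refine ⟨⟨div_nonneg a h0.le, by rw [div_le_iff₀ h0]; linarith⟩, ?_⟩
        intro m hm
        apply c (m+1)
        rw [GG_succ h0]
        refine ⟨false, _, hm, ?_⟩
        simp [dig]; field_simp
      · push Not at h2
        have h3 : q ≤ xs n := by
          by_contra hn
          push Not at hn
          apply c 0
          rw [GG_zero, rr1]
          exact ⟨h2, hn⟩
        refine ⟨⟨div_nonneg (by linarith) h0.le, by rw [div_le_iff₀ h0]; linarith⟩, ?_⟩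
        intro m hm
        apply c (m+1)
        rw [GG_succ h0]
        refine ⟨true, _, hm, ?_⟩
        simp [dig]; field_simp; ring
  set ε : ℕ → Bool := fun n => decide (¬ (xs n ≤ q*(q/(1-q)))) with hε
  have hrec : ∀ n, xs n = dig (ε n) * q + q * xs (n+1) := by
    intro n
    rw [hstep]
    unfold stepx
    split_ifs with h2
    · have : ε n = false := by simp [hε, h2]
      rw [this]; simp [dig]; field_simp
    · have : ε n = true := by simp [hε]; linarith
      rw [this]; simp [dig]; field_simp; ring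
  have hsum : ∀ n, x = ∑ i ∈ range n, dig (ε i) * q ^ (i+1) + q^n * xs n := by
    intro n
    induction n with
    | zero => simp [hxs]
    | succ n ih =>
      rw [sum_range_succ]
      rw [hrec n] at ih
      rw [ih]; ring
  refine ⟨ε, ?_⟩
  have hlim : Filter.Tendsto (fun n => ∑ i ∈ range n, dig (ε i) * q ^ (i+1)) Filter.atTop (nhds x) := by
    have h3 : (fun n => ∑ i ∈ range n, dig (ε i) * q ^ (i+1)) = fun n => x - q^n * xs n := by
      ext n
      have := hsum n
      linarith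
    rw [h3]
    have h4 : Filter.Tendsto (fun n => q^n * xs n) Filter.atTop (nhds 0) := by
      have hq : Filter.Tendsto (fun n : ℕ => q^n * (q/(1-q))) Filter.atTop (nhds 0) := by
        have := (tendsto_pow_atTop_nhds_zero_of_lt_one h0.le (by linarith : q < 1)).mul_const (q/(1-q))
        simpa using this
      refine squeeze_zero (fun n => ?_) (fun n => ?_) hq
      · exact mul_nonneg (pow_nonneg h0.le _) (key n).1.1
      · exact mul_le_mul_of_nonneg_left (key n).1.2 (pow_nonneg h0.le _)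
    have := (tendsto_const_nhds (x := x)).sub h4
    simpa using this
  exact (tendsto_nhds_unique (summ h0 h1 ε).hasSum.tendsto_sum_nat hlim).symm

theorem GG_open (n : ℕ) : IsOpen (GG q n) := by
  apply isOpen_iUnion
  intro ε
  exact isOpen_Ioo

theorem Ehat_eq (h0 : 0 < q) (h1 : q < 1/2) :
    Ehat q = Set.Icc 0 (q/(1-q)) ∩ ⋂ k : ℕ, (GG q (2*k+1))ᶜ := by
  ext x
  rw [mem_Ehat]
  simp only [Set.mem_inter_iff, Set.mem_iInter, Set.mem_compl_iff]
  constructor
  · rintro (h | ⟨k, h⟩)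
    · exact ⟨E_sub h0 h1 h, fun k => disjE h0 h1 _ x h⟩
    · exact ⟨GG_sub h0 h1 _ x h, fun j => disjG h0 h1 _ _ (by omega) x h⟩
  · rintro ⟨h2, h3⟩
    by_cases h4 : ∃ k, x ∈ GG q (2*k)
    · exact Or.inr h4
    · left
      push Not at h4
      apply cover h0 h1 h2
      intro n
      rcases Nat.even_or_odd n with ⟨k, hk⟩ | ⟨k, hk⟩
      · have : n = 2*k := by omega
        rw [this]; exact h4 k
      · rw [hk]; exact h3 k

theorem zero_mem_E : (0:ℝ) ∈ E q := ⟨fun _ => false, by simp [dig]⟩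

theorem cvl (h0 : 0 < q) (h1 : q < 1/2) : Cvl q (q/(1-q)) (Ehat q) := by
  have hr := rel h1
  have hz : (0:ℝ) ∈ Ehat q := mem_Ehat.2 (Or.inl zero_mem_E)
  have hrm : q/(1-q) ∈ Ehat q := by
    have := E_symm h0 h1 zero_mem_E
    simp only [sub_zero] at this
    exact mem_Ehat.2 (Or.inl this)
  -- two step functional equation
  have two : ∀ b b' : Bool, ∀ y ∈ Ehat q, dig b * q + q * (dig b' * q + q * y) ∈ Ehat q := by
    intro b b' y hy
    rw [mem_Ehat] at hy ⊢
    rcases hy with h | ⟨k, h⟩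
    · left
      rw [E_eqn h0 h1]
      refine ⟨b, _, ?_, rfl⟩
      rw [E_eqn h0 h1]
      exact ⟨b', _, h, rfl⟩
    · right
      refine ⟨k+1, ?_⟩
      have : 2*(k+1) = 2*k+1+1 := by ring
      rw [this, GG_succ h0]
      refine ⟨b, _, ?_, rfl⟩
      rw [GG_succ h0]
      exact ⟨b', _, h, rfl⟩
  refine ⟨h0, h1, hr, ?_, hz, ?_, ?_, ?_⟩
  · intro x hx
    rw [mem_Ehat] at hx
    rcases hx with h | ⟨k, h⟩
    · exact E_sub h0 h1 h
    · exact GG_sub h0 h1 _ x h
  · intro x
    constructor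
    · intro hx
      have main : x ∈ GG q 0 ∨ ∃ b b' : Bool, ∃ y ∈ Ehat q, x = dig b * q + q * (dig b' * q + q * y) := by
        rw [mem_Ehat] at hx
        rcases hx with h | ⟨k, h⟩
        · right
          rw [E_eqn h0 h1] at h
          obtain ⟨b, y, hy, rfl⟩ := h
          rw [E_eqn h0 h1] at hy
          obtain ⟨b', z, hz, rfl⟩ := hy
          exact ⟨b, b', z, mem_Ehat.2 (Or.inl hz), rfl⟩
        · cases k with
          | zero => left; exact h
          | succ k =>
            right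
            have : 2*(k+1) = 2*k+1+1 := by ring
            rw [this, GG_succ h0] at h
            obtain ⟨b, y, hy, rfl⟩ := h
            rw [GG_succ h0] at hy
            obtain ⟨b', z, hz, rfl⟩ := hy
            exact ⟨b, b', z, mem_Ehat.2 (Or.inr ⟨k, hz⟩), rfl⟩
      rcases main with h | ⟨b, b', y, hy, rfl⟩
      · rw [GG_zero, rr1] at h
        exact Or.inl ⟨h.1.le, h.2.le⟩
      · right
        cases b <;> cases b'
        · left; exact ⟨y, hy, by simp [dig]; ring⟩
        · right; left; exact ⟨y, hy, by simp [dig]; ring⟩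
        · right; right; left; exact ⟨y, hy, by simp [dig]; ring⟩
        · right; right; right; exact ⟨y, hy, by simp [dig]; ring⟩
    · rintro (⟨h2, h3⟩ | ⟨y, hy, e⟩ | ⟨y, hy, e⟩ | ⟨y, hy, e⟩ | ⟨y, hy, e⟩)
      · rcases eq_or_lt_of_le h2 with h4 | h4
        · have := two false true _ hrm
          have e : dig false * q + q * (dig true * q + q * (q/(1-q))) = x := by
            rw [← h4]
            simp [dig]
            left; linarith
          rwa [e] at this
        rcases eq_or_lt_of_le h3 with h5 | h5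
        · have := two true false _ hz
          have e : dig true * q + q * (dig false * q + q * 0) = x := by
            rw [h5]; simp [dig]
          rwa [e] at this
        · rw [mem_Ehat]
          right
          refine ⟨0, ?_⟩
          have : (2*0 : ℕ) = 0 := rfl
          rw [this, GG_zero, rr1]
          exact ⟨h4, h5⟩
      · have := two false false y hy
        have e' : dig false * q + q * (dig false * q + q * y) = x := by rw [e]; simp [dig]; ring
        rwa [e'] at this
      · have := two false true y hy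
        have e' : dig false * q + q * (dig true * q + q * y) = x := by rw [e]; simp [dig]; ring
        rwa [e'] at this
      · have := two true false y hy
        have e' : dig true * q + q * (dig false * q + q * y) = x := by rw [e]; simp [dig]; ring
        rwa [e'] at this
      · have := two true true y hy
        have e' : dig true * q + q * (dig true * q + q * y) = x := by rw [e]; simp [dig]; ring
        rwa [e'] at this
  · intro x hx
    rw [mem_Ehat] at hx ⊢
    rcases hx with h | ⟨k, h⟩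
    · exact Or.inl (E_symm h0 h1 h)
    · exact Or.inr ⟨k, GG_symm h0 h1 _ x h⟩
  · rw [Ehat_eq h0 h1]
    apply isClosed_Icc.inter
    apply isClosed_iInter
    intro k
    exact (GG_open _).isClosed_compl

end R261.CD
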