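import Pool.Agent.R261.CD.SV

namespace R261.CD

variable {q r : ℝ} {A : Set ℝ}

/-- one-sided distance property -/
def PP (A : Set ℝ) (b : ℝ) : Prop := ∀ a ∈ A, a - b ∈ A ∨ a + b ∈ A ∨ a + b - 1 ∈ A

namespace Cvl

theorem symr2 (h : Cvl q r A) {x : ℝ} (hx0 : 0 ≤ x) (hx1 : x ≤ q^2*r) : q^2*r - x ∈ A ↔ x ∈ A := by
  obtain ⟨q0, q1, r0, r1, e1, e2, e3, e4, e5, e6, e7⟩ := h.ineqs
  have qq := h.qq
  have h4 : x = q^2*(x/q^2) := by field_simp
  have h3 : 0 ≤ x/q^2 := div_nonneg hx0 qq.le
  have h2 : x/q^2 ≤ r := by rw [div_le_iff₀ qq]; linarith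
  have h5 : q^2*r - x = q^2*(r - x/q^2) := by
    nth_rw 1 [h4]; ring
  have h6 : x ∈ A ↔ x/q^2 ∈ A := by
    conv_lhs => rw [h4]
    exact h.piece0 h2
  rw [h5, h.piece0 (by linarith), h6]
  constructor
  · intro hh
    have := h.symm _ hh
    simpa using this
  · intro hh
    exact h.symm _ hh

theorem P_scale (h : Cvl q r A) {b : ℝ} (hb : 0 < b) (hb2 : b ≤ q^2*r) (hP : PP A b) :
    PP A (b/q^2) := by
  obtain ⟨q0, q1, r0, r1, e1, e2, e3, e4, e5, e6, e7⟩ := h.ineqs
  have qq := h.qq
  have h4 : b = q^2*(b/q^2) := by field_simp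
  have h3 : 0 < b/q^2 := div_pos hb qq
  have h2 : b/q^2 ≤ r := by rw [div_le_iff₀ qq]; linarith
  intro a ha
  have ha0 := h.sub a ha
  have ha1 : q^2*a ≤ q^2*r := by nlinarith
  rcases hP (q^2*a) ((h.piece0 ha0.2).2 ha) with h5 | h5 | h5
  · left
    have : q^2*a - b = q^2*(a - b/q^2) := by nth_rw 1 [h4]; ring
    rw [this, h.piece0 (by linarith)] at h5
    exact h5
  · right
    have e : q^2*a + b = q^2*(a + b/q^2) := by nth_rw 1 [h4]; ring
    rcases le_or_gt (a + b/q^2) r with h6 | h6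
    · left
      rwa [e, h.piece0 h6] at h5
    · right
      have h7 : q^2 ≤ q^2*a + b := by
        by_contra hn
        push Not at hn
        refine h.gap1 ?_ hn h5
        rw [e]; nlinarith
      have h8 : 1 ≤ a + b/q^2 := by
        rw [e] at h7
        by_contra hn
        push Not at hn
        nlinarith
      have e' : q^2*a + b = q^2 + q^2*(a + b/q^2 - 1) := by nth_rw 1 [h4]; ring
      rwa [e', h.piece1 (by linarith) (by linarith)] at h5
  · exfalso
    have := (h.sub _ h5).1
    nlinarith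

/-- the case `b > q r` -/
theorem noP_case1 (h : Cvl q r A) (hq : 1/3 ≤ q) {b : ℝ} (hb1 : q*r < b) (hbq : b < q)
    (J : ∀ a, q*r ≤ a → a ≤ q → a - b ∈ A ∨ a + b ∈ A)
    (T : ∀ t ∈ A, t < b → t ≤ q*r → t + b ∈ A) : False := by
  obtain ⟨q0, q1, r0, r1, e1, e2, e3, e4, e5, e6, e7⟩ := h.ineqs
  have qq := h.qq
  have hr2 : 1/2 ≤ r := by nlinarith
  have hqr2 : q ≤ 2*(q*r) := by nlinarith
  have hl : 0 < q - q*r := by linarith
  have hql : q^2*(q-q*r) < q*(q-q*r) := by nlinarith
  have ql : q*(q-q*r) = q^2 - q^2*r := by ring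
  have hll : q*(q-q*r) < q - q*r := by nlinarith
  have bnd : b - q*r ≤ q^2*(q-q*r) := by
    have hA : ∀ x, q*r + b < x → x < 2*b → x ∈ A := by
      intro x hx1 hx2
      rcases J (x-b) (by linarith) (by linarith) with h1 | h1
      · exfalso
        have := (h.sub _ h1).1
        linarith
      · simpa using h1
    rcases h.comp (by linarith) hA with ⟨a1, a2⟩ | ⟨a1, a2⟩
    · linarith
    · linarith
  set dl := b - (q-q*r) with hdl
  have hdlqr : dl < q*r := by nlinarith
  have hdl2 : q^2*r < dl := by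
    by_contra hn
    push Not at hn
    have hA : ∀ x, q^2*r + q - 2*b < x → x < q^2 + q - 2*b → x ∈ A := by
      intro x hx1 hx2
      have hs : x - q + 2*b ∉ A := h.gap1 (by linarith) (by linarith)
      rcases J (x + b) (by linarith) (by linarith) with h1 | h1
      · simpa using h1
      · exfalso
        apply hs
        have e : x + b + b = q + (x - q + 2*b) := by ring
        rw [e, h.trq (by linarith) (by linarith)] at h1
        exact h1
    rcases h.comp (by linarith) hA with ⟨a1, a2⟩ | ⟨a1, a2⟩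
    · linarith
    · linarith
  have hdlA : dl ∈ A := by
    have h1 := T (q*r) h.qrmem hb1 le_rfl
    have e : q*r + b = q + dl := by rw [hdl]; ring
    rw [e, h.trq (by linarith) hdlqr.le] at h1
    exact h1
  have hdlq2 : q^2 ≤ dl := by
    by_contra hn
    push Not at hn
    exact h.gap1 hdl2 hn hdlA
  have refl : ∀ y ∈ A, y ≤ dl → dl - y ∈ A := by
    intro y hy hyd
    have hy0 := (h.sub y hy).1
    have h1 := T (q*r - y) (h.symr1 hy (by linarith)) (by linarith) (by linarith)
    have e : q*r - y + b = q + (dl - y) := by rw [hdl]; ring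
    rw [e, h.trq (by linarith) (by linarith)] at h1
    exact h1
  have fr : ∀ z, dl - q^2 < z → z < dl - q^2*r → z ∉ A := by
    intro z hz1 hz2 hz
    exact h.gap1 (by linarith) (by linarith) (refl z hz (by linarith))
  have m1 := h.piecemem.1
  rcases le_or_gt (q^2*r) (dl - q^2) with h1 | h1
  · linarith
  rcases le_or_gt (dl - q^2*r) (q^2*r) with h2 | h2
  · have := h.free' (c := 0) (by simp) (by linarith) (by linarith) fr
    nlinarith
  · exact fr _ h1 h2 m1

/-- polynomial consequences -/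
theorem poly1 (h : Cvl q r A) (hq : 1/3 ≤ q)
    (H : 2*q^2 + 2*(1-q^2)*(q-q*r) ≤ q + q^2*r) : 0 < q^2+2*q-1 := by
  obtain ⟨q0, q1, r0, r1, e1, e2, e3, e4, e5, e6, e7⟩ := h.ineqs
  have h5 : r*(1-q) = q := by linarith
  have hX : 0 ≤ (q + q^2*r - 2*q^2 - 2*(1-q^2)*(q-q*r))*(1-q) := by
    apply mul_nonneg <;> linarith
  have e : (q + q^2*r - 2*q^2 - 2*(1-q^2)*(q-q*r))*(1-q) = q*(-1+q+5*q^2-4*q^3) := by
    have : (q + q^2*r - 2*q^2 - 2*(1-q^2)*(q-q*r))*(1-q) =
      q*(1-q) + q^2*(r*(1-q)) - 2*q^2*(1-q) - 2*(1-q^2)*(q*(1-q)-q*(r*(1-q))) := by ring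
    rw [this, h5]; ring
  rw [e] at hX
  have hF : 0 ≤ -1+q+5*q^2-4*q^3 := by
    by_contra hn
    push Not at hn
    nlinarith
  by_contra hn
  push Not at hn
  have hc : q < 0.4143 := by
    by_contra hc
    push Not at hc
    nlinarith
  nlinarith [mul_pos q0 (sub_pos.2 hc), mul_nonneg (sub_nonneg.2 hq) (sub_pos.2 hc).le,
    mul_nonneg (mul_nonneg (sub_nonneg.2 hq) (sub_pos.2 hc).le) q0.le]

theorem poly2 (h : Cvl q r A) (hq : 1/3 ≤ q)
    (H : 2*(q^2 + (q-q*r)) ≤ q + q^2*r + q^2*(q*(q-q*r))) : 0 < q^2+2*q-1 := by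
  obtain ⟨q0, q1, r0, r1, e1, e2, e3, e4, e5, e6, e7⟩ := h.ineqs
  have h5 : r*(1-q) = q := by linarith
  have hX : 0 ≤ (q + q^2*r + q^2*(q*(q-q*r)) - 2*(q^2+(q-q*r)))*(1-q) := by
    apply mul_nonneg <;> linarith
  have e : (q + q^2*r + q^2*(q*(q-q*r)) - 2*(q^2+(q-q*r)))*(1-q) = q*(-1+q+3*q^2+q^3-2*q^4) := by
    have : (q + q^2*r + q^2*(q*(q-q*r)) - 2*(q^2+(q-q*r)))*(1-q) =
      q*(1-q) + q^2*(r*(1-q)) + q^2*(q*(q*(1-q)-q*(r*(1-q)))) - 2*(q^2*(1-q)+(q*(1-q)-q*(r*(1-q)))) := by
      ring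
    rw [this, h5]; ring
  rw [e] at hX
  have hF : 0 ≤ -1+q+3*q^2+q^3-2*q^4 := by
    by_contra hn
    push Not at hn
    nlinarith
  by_contra hn
  push Not at hn
  have hc : q < 0.4143 := by
    by_contra hc
    push Not at hc
    nlinarith
  have h2 : q^2 < 0.1717 := by nlinarith
  have h3 : q^3 < 0.0712 := by
    have : q^3 = q*q^2 := by ring
    nlinarith
  have h4 : 0 < q^4 := by positivity
  nlinarith

theorem polyA (h : Cvl q r A) {x : ℝ}
    (H : 2*x ≤ q + q^2*r + q^2*(q*(q-q*r))) :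
    2*x*(1-q) ≤ q*(1-q+q^2+q^3-2*q^4) := by
  obtain ⟨q0, q1, r0, r1, e1, e2, e3, e4, e5, e6, e7⟩ := h.ineqs
  have h5 : r*(1-q) = q := by linarith
  have hX : 2*x*(1-q) ≤ (q + q^2*r + q^2*(q*(q-q*r)))*(1-q) := by
    apply mul_le_mul_of_nonneg_right H; linarith
  have e : (q + q^2*r + q^2*(q*(q-q*r)))*(1-q) = q*(1-q+q^2+q^3-2*q^4) := by
    have : (q + q^2*r + q^2*(q*(q-q*r)))*(1-q) =
      q*(1-q) + q^2*(r*(1-q)) + q^2*(q*(q*(1-q)-q*(r*(1-q)))) := by
      ring
    rw [this, h5]; ring
  linarith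

/-- the special value `b = q^2+q^3` -/
theorem noP_t3 (h : Cvl q r A) (hq2 : 0 < q^2+2*q-1) {b : ℝ} (hb : b = q^2 + q^3)
    (hbl : q - q^2 < b)
    (J : ∀ s, b - (q-q*r) ≤ s → s ≤ b → q + s ∈ A ∨ s + q - 2*b ∈ A) : False := by
  obtain ⟨q0, q1, r0, r1, e1, e2, e3, e4, e5, e6, e7⟩ := h.ineqs
  have qq := h.qq
  have hl : 0 < q - q*r := by linarith
  have q3 : 0 < q^3 := by positivity
  have q3r : 0 < q^3*r := by positivity
  have e8 : q^3*r = q^2*(q*r) := by ring
  have q21 : q^2 < 1/4 := by nlinarith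
  have hql : q^2*(q-q*r) < q*(q-q*r) := by nlinarith
  have hql0 : 0 < q^2*(q-q*r) := by positivity
  set e := q^2 + q^3*r with he
  set L := (q-q*r)*(1-2*q^2) with hL
  have hL0 : 0 < L := by apply mul_pos hl; linarith
  have heb : e = b - q^2*(q-q*r) := by rw [he, hb]; ring
  have heqr : e < q*r := by rw [he, e8, e2]; nlinarith
  have hLe : L = 2*e - 2*b + (q-q*r) := by rw [heb, hL]; ring
  have K : ∀ u, 0 < u → u < L → e - u ∈ A ∨ e - (L-u) ∈ A := by
    intro u hu0 huL
    have hLL : L ≤ (q-q*r) - q^2*(q-q*r) := by rw [hL]; nlinarith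
    rcases J (e-u) (by linarith) (by linarith) with h1 | h1
    · left
      rw [h.trq (by linarith) (by linarith)] at h1
      exact h1
    · right
      have e9 : e - u + q - 2*b = q*r - (e - (L-u)) := by rw [hLe]; ring
      rw [e9, h.symr1' (by linarith) (by linarith)] at h1
      exact h1
  have E1 : ∀ u, 0 ≤ u → u ≤ q^3*r → (e - u ∈ A ↔ u/q^2 ∈ A) := by
    intro u hu0 hu1
    have h3 : 0 ≤ u/q^2 := div_nonneg hu0 qq.le
    have h2 : u/q^2 ≤ q*r := by rw [div_le_iff₀ qq]; linarith
    have h4 : u = q^2*(u/q^2) := by field_simp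
    have h5 : e - u = q^2 + q^2*(q*r - u/q^2) := by
      rw [he]; nth_rw 1 [h4]; ring
    rw [h5, h.piece1 (by linarith) (by linarith), h.symr1' h3 h2]
  have E2 : ∀ u, q^3*r < u → u < q^3*r + q*(q-q*r) → e - u ∉ A := by
    intro u hu0 hu1
    exact h.gap1 (by rw [he]; nlinarith) (by rw [he]; linarith)
  rcases le_or_gt L (q^3*r) with hc | hc
  · have hLr : L/q^2 ≤ q*r := by rw [div_le_iff₀ qq]; linarith
    have hV : VV r A (L/q^2) := by
      refine ⟨div_nonneg hL0.le qq.le, by linarith, ?_⟩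
      intro s hs0 hs1
      rcases eq_or_lt_of_le hs0 with h0 | h0
      · left; rw [← h0]; exact h.zero
      rcases eq_or_lt_of_le hs1 with h1 | h1
      · right; rw [h1]; simpa using h.zero
      have h2 : q^2*s < L := by rw [lt_div_iff₀ qq] at h1; linarith
      have h3 : 0 < q^2*s := by positivity
      rcases K (q^2*s) h3 h2 with h4 | h4
      · left
        rw [E1 _ h3.le (by linarith)] at h4
        have : q^2*s/q^2 = s := by field_simp
        rwa [this] at h4
      · right
        rw [E1 _ (by linarith) (by linarith)] at h4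
        have : (L - q^2*s)/q^2 = L/q^2 - s := by field_simp
        rwa [this] at h4
    have := h.V2 hq2 hV
    have : 0 < L/q^2 := div_pos hL0 qq
    linarith
  · rcases le_or_gt L (q^3*r + q*(q-q*r)) with hd | hd
    · have hm : 0 < min (L - q^3*r) (q^3*r) / q^2 := div_pos (lt_min (by linarith) q3r) qq
      obtain ⟨y, hy0, hy1, hy2, hy3⟩ := h.I0 hm
      rw [lt_div_iff₀ qq] at hy1
      have hy4 := lt_of_lt_of_le hy1 (min_le_left _ _)
      have hy5 := lt_of_lt_of_le hy1 (min_le_right _ _)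
      have hy6 : 0 < y*q^2 := by positivity
      have h1 : e - y*q^2 ∉ A := by
        rw [E1 _ hy6.le hy5.le]
        have : y*q^2/q^2 = y := by field_simp
        rwa [this]
      rcases K (L - y*q^2) (by linarith) (by linarith) with h2 | h2
      · exact E2 _ (by linarith) (by linarith) h2
      · apply h1
        have : L - (L - y*q^2) = y*q^2 := by ring
        rwa [this] at h2
    · have hA : ∀ x, e - (L - q^3*r) < x → x < e - (L - q^3*r - q*(q-q*r)) → x ∈ A := by
        intro x hx1 hx2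
        rcases K (L - (e - x)) (by linarith) (by linarith) with h2 | h2
        · exact absurd h2 (E2 _ (by linarith) (by linarith))
        · have : e - (L - (L - (e - x))) = x := by ring
          rwa [this] at h2
      rcases h.comp (by linarith) hA with ⟨a1, a2⟩ | ⟨a1, a2⟩
      · linarith
      · linarith

/-- the case `b ≤ q r` -/
theorem noP_case2 (h : Cvl q r A) (hq : 1/3 ≤ q) {b : ℝ} (hb1 : b ≤ q*r) (hbq2 : q^2 ≤ b)
    (hbA : b ∈ A)
    (J0 : ∀ a, q*r ≤ a → a ≤ q → a - b ∈ A ∨ a + b ∈ A)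
    (T : ∀ t ∈ A, t < b → t ≤ q*r → t + b ∈ A) : False := by
  obtain ⟨q0, q1, r0, r1, e1, e2, e3, e4, e5, e6, e7⟩ := h.ineqs
  have qq := h.qq
  have hl : 0 < q - q*r := by linarith
  have hql : q^2*(q-q*r) < q*(q-q*r) := by nlinarith
  have hql2 : q^2*(q*(q-q*r)) < q*(q-q*r) := by nlinarith [mul_pos q0 hl]
  have ql : q*(q-q*r) = q^2 - q^2*r := by ring
  have J : ∀ s, b - (q-q*r) ≤ s → s ≤ b → q + s ∈ A ∨ s + q - 2*b ∈ A := by
    intro s hs1 hs2
    rcases J0 (s + q - b) (by linarith) (by linarith) with h1 | h1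
    · right; have e : s + q - b - b = s + q - 2*b := by ring
      rwa [e] at h1
    · left; have e : s + q - b + b = q + s := by ring
      rwa [e] at h1
  have hbl : q - q^2 < b := by
    by_contra hn
    push Not at hn
    have hA : ∀ x, q^2*r + q - 2*b < x → x < q^2 + q - 2*b → x ∈ A := by
      intro x hx1 hx2
      have hs : x - q + 2*b ∉ A := h.gap1 (by linarith) (by linarith)
      rcases J (x - q + 2*b) (by linarith) (by linarith) with h1 | h1
      · exfalso
        apply hs
        rw [h.trq (by linarith) (by linarith)] at h1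
        exact h1
      · have e : x - q + 2*b + q - 2*b = x := by ring
        rwa [e] at h1
    rcases h.comp (by linarith) hA with ⟨a1, a2⟩ | ⟨a1, a2⟩
    · have hq3 : q = 1/3 := by
        have : 3*q^2 ≤ q := by linarith
        nlinarith
      have hr3 : r = 1/2 := by rw [hq3] at e1; linarith
      have hb3 : b = 1/9 := by rw [hq3, hr3] at a1; rw [hq3] at hbq2; norm_num at a1 hbq2 ⊢; linarith
      obtain ⟨x, hx0, hx1, hx2, hx3⟩ := h.I0 e3
      rcases J x (by rw [hb3, hq3, hr3]; norm_num; linarith) (by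
        rw [hb3]; rw [hq3, hr3] at hx1; norm_num at hx1; linarith) with h1 | h1
      · rw [h.trq hx0.le hx2.le] at h1
        exact hx3 h1
      · have e : x + q - 2*b = q*r - (q^2*r - x) := by rw [hb3, hq3, hr3]; norm_num; ring
        rw [e, h.symr1' (by linarith) (by linarith), h.symr2 hx0.le hx1.le] at h1
        exact hx3 h1
    · linarith
  have hqb : q^2 < b := by nlinarith
  set d := q - b with hd
  have hd0 : 0 < d := by linarith
  have freeT : ∀ t, t < b → q^2*r + d < t → t < q^2 + d → t ∉ A := by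
    intro t ht1 ht2 ht3 htA
    have h1 := T t htA ht1 (by linarith)
    have e : t + b = q + (t - d) := by rw [hd]; ring
    rw [e, h.trq (by linarith) (by linarith)] at h1
    exact h.gap1 (by linarith) (by linarith) h1
  have hd1 : q^2 ≤ q^2*r + d := by
    by_contra hn
    push Not at hn
    exact freeT (q^2) hqb hn (by linarith) h.piecemem.2.1
  have hd2 : b < q^2 + d := by
    by_contra hn
    push Not at hn
    have := h.free' (c := q^2) (a := q^2*r+d) (b := q^2+d) (by simp) hd1 (by linarith) (by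
      intro x hx1 hx2
      exact freeT x (by linarith) hx1 hx2)
    linarith
  have star : 2*b ≤ q + q^2*r + q^2*(q*(q-q*r)) := by
    rcases le_or_gt b (q^2*r + d) with h1 | h1
    · have : 0 < q^2*(q*(q-q*r)) := by positivity
      linarith
    · have := h.free' (c := q^2) (a := q^2*r+d) (b := b) (by simp) hd1 (by linarith) (by
        intro x hx1 hx2
        exact freeT x (by linarith) hx1 (by linarith))
      linarith
  have star2 : ∀ e, e < b → (∀ x, e < x → x < b → x ∈ A) → 2*b ≤ q + q^2*r := by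
    intro e he hx
    by_contra hn
    push Not at hn
    obtain ⟨x, hx1, hx2⟩ := exists_between (show max e (q^2*r + d) < b from max_lt he (by linarith))
    have hx3 := lt_of_le_of_lt (le_max_left _ _) hx1
    have hx4 := lt_of_le_of_lt (le_max_right _ _) hx1
    exact freeT x hx2 hx4 (by linarith) (hx x hx3 hx2)
  have hq2 : 0 < q^2 + 2*q - 1 := by
    rcases lt_or_ge (b - (q-q*r)) (q^2) with hc | hc
    · have hA : ∀ x, q*r - b < x → x < q + q^2 - 2*b → x ∈ A := by
        intro x hx1 hx2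
        have hs : x - q + 2*b ∉ A := h.gap1 (by linarith) (by linarith)
        rcases J (x - q + 2*b) (by linarith) (by linarith) with h1 | h1
        · exfalso
          apply hs
          rw [h.trq (by linarith) (by linarith)] at h1
          exact h1
        · have e : x - q + 2*b + q - 2*b = x := by ring
          rwa [e] at h1
      rcases h.comp (by linarith) hA with ⟨a1, a2⟩ | ⟨a1, a2⟩
      · linarith
      · have h2 : 2*b ≤ q + q^2*r := by
          refine star2 (max 0 (2*b - (q-q*r) - q^2)) (max_lt (by linarith) (by linarith)) ?_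
          intro x hx1 hx2
          have hx3 := lt_of_le_of_lt (le_max_left _ _) hx1
          have hx4 := lt_of_le_of_lt (le_max_right _ _) hx1
          have := hA (q*r - x) (by linarith) (by linarith)
          rwa [h.symr1' hx3.le (by linarith)] at this
        apply h.poly1 hq
        nlinarith
    · apply h.poly2 hq
      linarith
  -- classification
  have hbe : b = q^2 + q^2*((b-q^2)/q^2) := by field_simp; ring
  set g := (b-q^2)/q^2 with hg
  have hg0 : 0 ≤ g := div_nonneg (by linarith) qq.le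
  have hgr : g ≤ r := by rw [hg, div_le_iff₀ qq]; linarith
  have hSS : SS r A g := by
    refine ⟨by rw [← h.piece1 hg0 hgr, ← hbe]; exact hbA, ?_⟩
    intro a ha hab
    have ha0 := h.sub a ha
    have ha1 : q^2*a ≤ q^2*r := by nlinarith
    have h1 := T (q^2*a) ((h.piece0 ha0.2).2 ha) (by linarith) (by linarith)
    have e : q^2*a + b = q^2 + q^2*(g + a) := by rw [hbe]; ring
    rw [e, h.piece1 (by linarith) hab] at h1
    exact h1
  have h5 : r*(1-q) = q := by linarith
  have hpA := h.polyA star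
  have hneg : 0 < (1-q)*(q^2+2*q-1) := mul_pos (by linarith) hq2
  rcases h.S4 hSS with hc | ⟨n, hn⟩
  · have hbr : b = q*r := by rw [hbe, hc]; linarith
    rw [hbr] at hpA
    have : 2*(q*r)*(1-q) = q*(2*q) := by
      calc 2*(q*r)*(1-q) = 2*q*(r*(1-q)) := by ring
        _ = _ := by rw [h5]; ring
    rw [this] at hpA
    have h6 : 2*q ≤ 1-q+q^2+q^3-2*q^4 := le_of_mul_le_mul_left hpA q0
    have h7 : 0 < q^4 := by positivity
    nlinarith
  · match n, hn with
    | 0, hn =>
      have : b = q^2 := by rw [hbe, hn]; simp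
      linarith
    | 1, hn =>
      have hbb : b = q^2 + q^3 := by
        rw [hbe, hn]
        have : q^2*(r*(1-q^1)) = q^2*(r*(1-q)) := by ring
        rw [this, h5]; ring
      exact h.noP_t3 hq2 hbb hbl J
    | (n+2), hn =>
      have hqn : q^(n+2) ≤ q^2 := by
        apply pow_le_pow_of_le_one q0.le (by linarith); omega
      have h6 : q*r - q^4*r ≤ b := by
        rw [hbe, hn, e2]
        have : q^2*r*(q^(n+2)) ≤ q^2*r*q^2 := by
          apply mul_le_mul_of_nonneg_left hqn; positivity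
        nlinarith
      have h7 : 2*(q*r - q^4*r)*(1-q) ≤ 2*b*(1-q) := by
        apply mul_le_mul_of_nonneg_right _ (by linarith); linarith
      have h8 : 2*(q*r - q^4*r)*(1-q) = q*(2*q - 2*q^4) := by
        calc 2*(q*r - q^4*r)*(1-q) = (2*q - 2*q^4)*(r*(1-q)) := by ring
          _ = _ := by rw [h5]; ring
      rw [h8] at h7
      have h9 : 2*q - 2*q^4 ≤ 1-q+q^2+q^3-2*q^4 := le_of_mul_le_mul_left (h7.trans hpA) q0
      nlinarith

theorem noP (h : Cvl q r A) (hq : 1/3 ≤ q) {b : ℝ} (hb : q^2*r < b) (hbr : b ≤ r) (hP : PP A b) :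
    False := by
  obtain ⟨q0, q1, r0, r1, e1, e2, e3, e4, e5, e6, e7⟩ := h.ineqs
  have qq := h.qq
  have hl : 0 < q - q*r := by linarith
  have hll : q^2*(q-q*r) < q - q*r := by nlinarith
  have hbA : b ∈ A := by
    rcases hP 0 h.zero with h1 | h1 | h1
    · have := (h.sub _ h1).1; linarith
    · simpa using h1
    · have := (h.sub _ h1).1; linarith
  have hb2 : q^2 ≤ b := by
    by_contra hn
    push Not at hn
    exact h.gap1 hb hn hbA
  have hbq : b < q := by
    by_contra hn
    push Not at hn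
    have hA : ∀ x, q*r + b - 1 < x → x < q + b - 1 → x ∈ A := by
      intro x hx1 hx2
      rcases hP (x + 1 - b) (h.mid (by linarith) (by linarith)) with h1 | h1 | h1
      · have := (h.sub _ h1).1; linarith
      · have := (h.sub _ h1).2; linarith
      · simpa using h1
    rcases h.comp (by linarith) hA with ⟨a1, a2⟩ | ⟨a1, a2⟩
    · linarith
    · linarith
  have J : ∀ a, q*r ≤ a → a ≤ q → a - b ∈ A ∨ a + b ∈ A := by
    intro a ha1 ha2
    rcases hP a (h.mid ha1 ha2) with h1 | h1 | h1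
    · exact Or.inl h1
    · exact Or.inr h1
    · have := (h.sub _ h1).1; linarith
  have T : ∀ t ∈ A, t < b → t ≤ q*r → t + b ∈ A := by
    intro t ht ht1 ht2
    rcases hP t ht with h1 | h1 | h1
    · have := (h.sub _ h1).1; linarith
    · exact h1
    · have := (h.sub _ h1).1; linarith
  rcases lt_or_ge (q*r) b with hc | hc
  · exact h.noP_case1 hq hc hbq J T
  · exact h.noP_case2 hq hc hb2 hbA J T

theorem noP_all (h : Cvl q r A) (hq : 1/3 ≤ q) (k : ℕ) : ∀ b, (q^2)^k*r < b → b ≤ r → PP A b → False := by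
  obtain ⟨q0, q1, r0, r1, e1, e2, e3, e4, e5, e6, e7⟩ := h.ineqs
  have qq := h.qq
  induction k with
  | zero => intro b hb hbr; simp at hb; linarith
  | succ k ih =>
    intro b hb hbr hP
    have hb0 : 0 < b := lt_trans (by positivity) hb
    rcases lt_or_ge (q^2*r) b with h1 | h1
    · exact h.noP hq h1 hbr hP
    · refine ih (b/q^2) ?_ ?_ (h.P_scale hb0 h1 hP)
      · rw [lt_div_iff₀ qq]
        rw [pow_succ] at hb
        linarith
      · rw [div_le_iff₀ qq]; linarith

/-- Part 1: for `q ≥ 1/3` the centre of distances is `{0}` -/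
theorem part1 (h : Cvl q r A) (hq : 1/3 ≤ q) {b : ℝ} (hb : 0 ≤ b)
    (hC : ∀ a ∈ A, a - b ∈ A ∨ a + b ∈ A) : b = 0 := by
  obtain ⟨q0, q1, r0, r1, e1, e2, e3, e4, e5, e6, e7⟩ := h.ineqs
  by_contra hne
  have hbp : 0 < b := lt_of_le_of_ne hb (Ne.symm hne)
  have hbr : b ≤ r := by
    rcases hC 0 h.zero with h1 | h1
    · have := (h.sub _ h1).1; linarith
    · have := (h.sub _ h1).2; linarith
  obtain ⟨k, hk⟩ := exists_pow_lt_of_lt_one (div_pos hbp r0) (show q^2 < 1 by nlinarith)
  rw [lt_div_iff₀ r0] at hk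
  refine h.noP_all hq k b hk hbr ?_
  intro a ha
  rcases hC a ha with h1 | h1
  · exact Or.inl h1
  · exact Or.inr (Or.inl h1)

end Cvl

end R261.CD
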