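import Pool.Agent.R261.CD.SV

namespace R261.CD

variable {q r : ℝ} {A : Set ℝ}

/-- two-sided distance property -/
def CC (A : Set ℝ) (b : ℝ) : Prop := ∀ a ∈ A, a - b ∈ A ∨ a + b ∈ A

/-- the generating set -/
def DD (q r : ℝ) (K : Set ℝ) (a : ℝ) : Prop :=
  (q*r ≤ a ∨ ∃ n : ℕ, a = q*r*(1-q^(n+1))) ∧ (2*a ≤ q - q*r ∨ ∃ v ∈ K, 2*a = q - q*r + q^2*v)

/-- the fractal operator -/
def Phi (q r : ℝ) (K : Set ℝ) : Set ℝ :=
  Set.Icc (2*(q*r)) q ∪ (fun u => q^2*u) '' K ∪ (fun u => 2*(q*r) - q^2*u) '' K ∪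
    (fun u => q + q^2*u) '' K

theorem mem_Phi {K : Set ℝ} {x : ℝ} : x ∈ Phi q r K ↔ (2*(q*r) ≤ x ∧ x ≤ q) ∨
    (∃ u ∈ K, x = q^2*u) ∨ (∃ u ∈ K, x = 2*(q*r) - q^2*u) ∨ (∃ u ∈ K, x = q + q^2*u) := by
  unfold Phi
  constructor
  · rintro (((h | ⟨u, hu, rfl⟩) | ⟨u, hu, rfl⟩) | ⟨u, hu, rfl⟩)
    · exact Or.inl h
    · exact Or.inr (Or.inl ⟨u, hu, rfl⟩)
    · exact Or.inr (Or.inr (Or.inl ⟨u, hu, rfl⟩))
    · exact Or.inr (Or.inr (Or.inr ⟨u, hu, rfl⟩))
  · rintro (h | ⟨u, hu, rfl⟩ | ⟨u, hu, rfl⟩ | ⟨u, hu, rfl⟩)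
    · exact Or.inl (Or.inl (Or.inl h))
    · exact Or.inl (Or.inl (Or.inr ⟨u, hu, rfl⟩))
    · exact Or.inl (Or.inr ⟨u, hu, rfl⟩)
    · exact Or.inr ⟨u, hu, rfl⟩

namespace Cvl

theorem half (h : Cvl q r A) (hq : q < 1/3) : r < 1/2 := by
  obtain ⟨q0, q1, r0, r1, e1, e2, e3, e4, e5, e6, e7⟩ := h.ineqs
  by_contra hn
  push Not at hn
  nlinarith

theorem CCle (h : Cvl q r A) {b : ℝ} (hb : CC A b) : b ≤ r/2 := by
  obtain ⟨q0, q1, r0, r1, e1, e2, e3, e4, e5, e6, e7⟩ := h.ineqs
  rcases hb (r/2) (h.mid (by linarith) (by linarith)) with h1 | h1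
  · have := (h.sub _ h1).1; linarith
  · have := (h.sub _ h1).2; linarith

theorem CCscale (h : Cvl q r A) (hq : q < 1/3) {b : ℝ} (hb0 : 0 ≤ b) (hb : CC A b) :
    CC A (q^2*b) := by
  obtain ⟨q0, q1, r0, r1, e1, e2, e3, e4, e5, e6, e7⟩ := h.ineqs
  have qq := h.qq
  have hr2 := h.half hq
  have hbr := h.CCle hb
  have hbq : q^2*b ≤ q^2*(r/2) := by nlinarith
  have hbq0 : 0 ≤ q^2*b := by positivity
  have hf : q*r + q^2*r ≤ q := by nlinarith
  have key : ∀ c y, (c = 0 ∨ c = q^2 ∨ c = q ∨ c = q + q^2) → y ∈ A →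
      c + q^2*y - q^2*b ∈ A ∨ c + q^2*y + q^2*b ∈ A := by
    intro c y hc hy
    rcases hb y hy with h1 | h1
    · left
      have hs := h.sub _ h1
      have : c + q^2*y - q^2*b = c + q^2*(y-b) := by ring
      rw [this]
      exact (h.piece hc hs.1 hs.2).2 h1
    · right
      have hs := h.sub _ h1
      have : c + q^2*y + q^2*b = c + q^2*(y+b) := by ring
      rw [this]
      exact (h.piece hc hs.1 hs.2).2 h1
  intro x hx
  rcases (h.eqn _).1 hx with ⟨a, b'⟩ | ⟨z, hz, e⟩ | ⟨z, hz, e⟩ | ⟨z, hz, e⟩ | ⟨z, hz, e⟩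
  · rcases le_or_gt (x + q^2*b) q with h1 | h1
    · right; exact h.mid (by linarith) h1
    · left; exact h.mid (by linarith) (by linarith)
  · have := key 0 z (by simp) hz
    rw [e]; simpa using this
  · rw [e]; exact key _ z (by simp) hz
  · rw [e]; exact key _ z (by simp) hz
  · rw [e]; exact key _ z (by simp) hz

theorem CCunscale (h : Cvl q r A) (hq : q < 1/3) {b : ℝ} (hb0 : 0 ≤ b) (hbr : b ≤ r)
    (hb : CC A (q^2*b)) : CC A b := by
  obtain ⟨q0, q1, r0, r1, e1, e2, e3, e4, e5, e6, e7⟩ := h.ineqs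
  have qq := h.qq
  have hr2 := h.half hq
  intro y hy
  have hy0 := h.sub y hy
  rcases hb (q^2*y) ((h.piece0 hy0.2).2 hy) with h1 | h1
  · left
    have e : q^2*y - q^2*b = q^2*(y-b) := by ring
    rwa [e, h.piece0 (by linarith)] at h1
  · right
    have e : q^2*y + q^2*b = q^2*(y+b) := by ring
    rw [e] at h1
    have h2 : y + b ≤ r := by
      by_contra hn
      push Not at hn
      refine h.gap1 ?_ ?_ h1
      · nlinarith
      · nlinarith
    exact (h.piece0 h2).1 h1

theorem CCpow (h : Cvl q r A) (hq : q < 1/3) {b : ℝ} (hb0 : 0 ≤ b) (hb : CC A b) (k : ℕ) :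
    CC A (q^(2*k)*b) := by
  induction k with
  | zero => simpa using hb
  | succ k ih =>
    have := h.CCscale hq (mul_nonneg (pow_nonneg h.q0.le _) hb0) ih
    have e : q^(2*(k+1))*b = q^2*(q^(2*k)*b) := by ring
    rw [e]; exact this

/-- `D ⊆ C` -/
theorem DDCC (h : Cvl q r A) (hq : q < 1/3) {a : ℝ} (ha : DD q r {v | VV r A v} a) :
    0 ≤ a ∧ CC A a := by
  obtain ⟨q0, q1, r0, r1, e1, e2, e3, e4, e5, e6, e7⟩ := h.ineqs
  have qq := h.qq
  have hr2 := h.half hq
  obtain ⟨ha1, ha2⟩ := ha
  have hf1 : q*r + q^2*r ≤ q := by nlinarith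
  have hf2 : 2*(q*r) ≤ q := by nlinarith
  have hau : 2*a ≤ q - q*r + q^2*r := by
    rcases ha2 with h1 | ⟨v, hv, h1⟩
    · linarith
    · have hvr : v ≤ r := hv.2.1
      nlinarith
  have hal : a ≤ q - q*r := by linarith
  have hq3 : q*(r*(1-q)) = q^2 := by
    have : r*(1-q) = q := by linarith
    rw [this]; ring
  have haq2 : q^2 ≤ a := by
    rcases ha1 with h1 | ⟨n, h1⟩
    · linarith
    · rw [h1]
      have : q^(n+1) ≤ q := by
        calc q^(n+1) ≤ q^1 := pow_le_pow_of_le_one q0.le (by linarith) (by omega)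
          _ = q := pow_one q
      have h3 : q*r*(1-q) ≤ q*r*(1-q^(n+1)) := by
        apply mul_le_mul_of_nonneg_left; linarith; positivity
      linarith
  have ha0 : 0 ≤ a := by linarith
  have h2q : q*r ≤ 2*q^2 := by nlinarith
  have main : ∀ x ∈ A, x ≤ r/2 → x - a ∈ A ∨ x + a ∈ A := by
    intro x hx hxr
    rcases (h.eqn _).1 hx with ⟨b1, b2⟩ | ⟨y, hy, e⟩ | ⟨z, hz, e⟩ | ⟨z, hz, e⟩ | ⟨z, hz, e⟩
    · rcases le_or_gt (x + a) q with h1 | h1
      · right; exact h.mid (by linarith) h1
      rcases le_or_gt (q*r) (x - a) with h2 | h2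
      · left; exact h.mid h2 (by linarith)
      rcases ha2 with h3 | ⟨v, hv, h3⟩
      · exfalso; linarith
      · have hs0 : 0 < x + a - q := by linarith
        have hws : 0 < a + q*r - x := by linarith
        have hsum : (x + a - q) + (a + q*r - x) = q^2*v := by linarith
        have hs1 : (x+a-q)/q^2 ≤ v := by rw [div_le_iff₀ qq]; linarith
        have hvr : v ≤ r := hv.2.1
        have hvr2 : q^2*v ≤ q^2*r := by nlinarith
        have e4' : x + a - q = q^2*((x+a-q)/q^2) := by field_simp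
        rcases hv.2.2 ((x+a-q)/q^2) (div_nonneg hs0.le qq.le) hs1 with h4 | h4
        · right
          rw [← h.piece0 (by linarith), ← e4'] at h4
          rw [← h.trq hs0.le (by linarith)] at h4
          have : q + (x + a - q) = x + a := by ring
          rwa [this] at h4
        · left
          rw [← h.piece0 (by
            have : 0 ≤ (x+a-q)/q^2 := div_nonneg hs0.le qq.le
            linarith)] at h4
          have e5' : q^2*(v - (x+a-q)/q^2) = a + q*r - x := by
            have : q^2*(v - (x+a-q)/q^2) = q^2*v - q^2*((x+a-q)/q^2) := by ring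
            rw [this, ← e4']; linarith
          rw [e5'] at h4
          have := h.symr1 h4 (by linarith)
          have e6' : q*r - (a + q*r - x) = x - a := by ring
          rwa [e6'] at this
    · right
      have hy0 := h.sub y hy
      have hxq : x ≤ q^2*r := by rw [e]; nlinarith
      have hx0 := (h.sub x hx).1
      rcases ha1 with h1 | ⟨n, h1⟩
      · exact h.mid (by linarith) (by linarith)
      · have hS := (h.S5 n).1
        set g := r*(1-q^n) with hg
        have hgr := h.sub g hS.1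
        have hag : a = q^2 + q^2*g := by
          rw [h1, hg]
          calc q*r*(1-q^(n+1)) = q*r - q^2*r*q^n := by ring
            _ = q^2 + q^2*r - q^2*r*q^n := by rw [e2]
            _ = _ := by ring
        have e5' : x + a = q^2 + q^2*(g+y) := by rw [e, hag]; ring
        rcases le_or_gt (g + y) r with h2 | h2
        · rw [e5']
          exact (h.piece1 (by linarith) h2).2 (hS.2 y hy h2)
        · have h3 : q^2*r < q^2*(g+y) := by nlinarith
          have h4 : q^2*g ≤ q^2*r := by nlinarith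
          exact h.mid (by linarith) (by linarith)
    · right
      have hz0 := h.sub z hz
      have hx1 : q^2*z ≤ q^2*r := by nlinarith
      have hx2 : 0 ≤ q^2*z := mul_nonneg qq.le hz0.1
      exact h.mid (by linarith) (by linarith)
    · exfalso
      have := (h.sub z hz).1
      have : 0 ≤ q^2*z := mul_nonneg qq.le this
      linarith
    · exfalso
      have := (h.sub z hz).1
      have : 0 ≤ q^2*z := mul_nonneg qq.le this
      linarith
  refine ⟨ha0, ?_⟩
  intro x hx
  rcases le_or_gt x (r/2) with h1 | h1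
  · exact main x hx h1
  · rcases main (r - x) (h.symm x hx) (by linarith) with h2 | h2
    · right
      have := h.symm _ h2
      have e : r - (r - x - a) = x + a := by ring
      rwa [e] at this
    · left
      have := h.symm _ h2
      have e : r - (r - x + a) = x - a := by ring
      rwa [e] at this

/-- `C ∩ (r₂, ∞) ⊆ D` -/
theorem CCDD (h : Cvl q r A) (hq : q < 1/3) {b : ℝ} (hb0 : q^2*r < b) (hb : CC A b) :
    DD q r {v | VV r A v} b := by
  obtain ⟨q0, q1, r0, r1, e1, e2, e3, e4, e5, e6, e7⟩ := h.ineqs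
  have qq := h.qq
  have hr2 := h.half hq
  have hf1 : q*r + q^2*r ≤ q := by nlinarith
  have hf2 : 2*(q*r) < q := by nlinarith
  have hl : 0 < q - q*r := by linarith
  have ql : q*(q-q*r) = q^2 - q^2*r := by ring
  have hql : q^2*(q-q*r) < q*(q-q*r) := by nlinarith
  have hql3 : q^2 ≤ (1-q^2)*(q-q*r) := by nlinarith
  have hbr := h.CCle hb
  have hbA : b ∈ A := by
    rcases hb 0 h.zero with h1 | h1
    · have := (h.sub _ h1).1; linarith
    · simpa using h1
  have hb2 : q^2 ≤ b := by
    by_contra hn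
    push Not at hn
    exact h.gap1 hb0 hn hbA
  have hbq : b < q := by linarith
  -- b ≤ l
  have hbl : b ≤ q - q*r := by
    by_contra hn
    push Not at hn
    have hA : ∀ x, q*r + q - 2*b < x → x < q - b → x ∈ A := by
      intro x hx1 hx2
      rcases hb (x + b) (h.mid (by linarith) (by linarith)) with h1 | h1
      · simpa using h1
      · have := (h.sub _ h1).2; linarith
    rcases h.comp (by linarith) hA with ⟨a1, a2⟩ | ⟨a1, a2⟩
    · linarith
    · have hA2 : ∀ x, q^2*r + q - 2*b < x → x < q^2 + q - 2*b → x ∈ A := by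
        intro x hx1 hx2
        have hs : x - q + 2*b ∉ A := h.gap1 (by linarith) (by linarith)
        rcases hb (x + b) (h.mid (by linarith) (by linarith)) with h1 | h1
        · simpa using h1
        · exfalso
          apply hs
          have e : x + b + b = q + (x - q + 2*b) := by ring
          rw [e, h.trq (by linarith) (by linarith)] at h1
          exact h1
      rcases h.comp (by linarith) hA2 with ⟨a3, a4⟩ | ⟨a3, a4⟩
      · linarith
      · linarith
  have W : ∀ s, 0 < s → s < 2*b - (q-q*r) →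
      (s ≤ q*r ∧ s ∈ A) ∨ (2*b - (q-q*r) - s ≤ q*r ∧ 2*b - (q-q*r) - s ∈ A) := by
    intro s hs0 hs1
    rcases hb (q - b + s) (h.mid (by linarith) (by linarith)) with h1 | h1
    · right
      have hs := h.sub _ h1
      have e : q - b + s - b = q*r - (2*b - (q-q*r) - s) := by ring
      rw [e] at h1
      have h2 : 2*b - (q-q*r) - s ≤ q*r := by linarith [hs.1]
      rw [h.symr1' (by linarith) h2] at h1
      exact ⟨h2, h1⟩
    · left
      have hs := h.sub _ h1
      have e : q - b + s + b = q + s := by ring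
      rw [e] at h1 hs
      have h2 : s ≤ q*r := by linarith [hs.2]
      rw [h.trq hs0.le h2] at h1
      exact ⟨h2, h1⟩
  have hw : 2*b - (q-q*r) ≤ q^2*r := by
    by_contra hn
    push Not at hn
    rcases le_or_gt (2*b - (q-q*r)) (q^2) with h1 | h1
    · obtain ⟨x, hx0, hx1, hx2, hx3⟩ := h.I0 (sub_pos.2 hn)
      rcases W (2*b - (q-q*r) - x) (by linarith) (by linarith) with h2 | h2
      · exact h.gap1 (by linarith) (by linarith) h2.2
      · apply hx3
        have e : 2*b - (q-q*r) - (2*b - (q-q*r) - x) = x := by ring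
        rw [e] at h2
        exact h2.2
    · have hA : ∀ x, 2*b - (q-q*r) - q^2 < x → x < 2*b - (q-q*r) - q^2*r → x ∈ A ∧ x ≤ q*r := by
        intro x hx1 hx2
        rcases W (2*b - (q-q*r) - x) (by linarith) (by linarith) with h2 | h2
        · exact absurd h2.2 (h.gap1 (by linarith) (by linarith))
        · have e : 2*b - (q-q*r) - (2*b - (q-q*r) - x) = x := by ring
          rw [e] at h2
          exact ⟨h2.2, h2.1⟩
      rcases h.comp (by linarith) (fun x hx1 hx2 => (hA x hx1 hx2).1) with ⟨a3, a4⟩ | ⟨a3, a4⟩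
      · obtain ⟨x, hx1, hx2⟩ := exists_between (show 2*b - (q-q*r) - q^2 < 2*b - (q-q*r) - q^2*r by linarith)
        have := (hA x hx1 hx2).2
        linarith
      · linarith
  constructor
  · rcases le_or_gt (q*r) b with h1 | h1
    · exact Or.inl h1
    · right
      have hbe : b = q^2 + q^2*((b-q^2)/q^2) := by field_simp; ring
      set g := (b-q^2)/q^2 with hg
      have hg0 : 0 ≤ g := div_nonneg (by linarith) qq.le
      have hgr : g ≤ r := by rw [hg, div_le_iff₀ qq]; linarith
      have hSS : SS r A g := by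
        refine ⟨by rw [← h.piece1 hg0 hgr, ← hbe]; exact hbA, ?_⟩
        intro a ha hab
        have ha0 := h.sub a ha
        have ha1 : q^2*a ≤ q^2*r := by nlinarith
        rcases hb (q^2*a) ((h.piece0 ha0.2).2 ha) with h2 | h2
        · have := (h.sub _ h2).1; linarith
        · have e : q^2*a + b = q^2 + q^2*(g + a) := by rw [hbe]; ring
          rw [e, h.piece1 (by linarith) hab] at h2
          exact h2
      rcases h.S4 hSS with hc | ⟨n, hn⟩
      · exfalso
        rw [hc] at hbe; linarith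
      · refine ⟨n, ?_⟩
        rw [hbe, hn]
        calc q^2 + q^2*(r*(1-q^n)) = q^2 + q^2*r - q^2*r*q^n := by ring
          _ = q*r - q^2*r*q^n := by rw [e2]
          _ = _ := by ring
  · rcases le_or_gt (2*b - (q-q*r)) 0 with h1 | h1
    · left; linarith
    · right
      have hvr : (2*b - (q-q*r))/q^2 ≤ r := by rw [div_le_iff₀ qq]; linarith
      refine ⟨(2*b - (q-q*r))/q^2, ?_, by field_simp; ring⟩
      refine ⟨div_nonneg h1.le qq.le, hvr, ?_⟩
      intro s hs0 hs1
      rcases eq_or_lt_of_le hs0 with h0 | h0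
      · left; rw [← h0]; exact h.zero
      rcases eq_or_lt_of_le hs1 with h2 | h2
      · right; rw [h2]; simpa using h.zero
      have h3 : q^2*s < 2*b - (q-q*r) := by rw [lt_div_iff₀ qq] at h2; linarith
      have h4 : 0 < q^2*s := by positivity
      rcases W (q^2*s) h4 h3 with h5 | h5
      · left; exact (h.piece0 (by linarith)).1 h5.2
      · right
        have e : 2*b - (q-q*r) - q^2*s = q^2*((2*b - (q-q*r))/q^2 - s) := by field_simp
        rw [e, h.piece0 (by linarith)] at h5
        exact h5.2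

theorem CC_iff1 (h : Cvl q r A) (hq : q < 1/3) (k : ℕ) : ∀ b, (q^2)^k*r < b → CC A b →
    ∃ (j : ℕ) (a : ℝ), b = q^(2*j)*a ∧ DD q r {v | VV r A v} a := by
  obtain ⟨q0, q1, r0, r1, e1, e2, e3, e4, e5, e6, e7⟩ := h.ineqs
  have qq := h.qq
  induction k with
  | zero =>
    intro b hb hC
    have := h.CCle hC
    simp at hb; exfalso; linarith
  | succ k ih =>
    intro b hb hC
    have hb0 : 0 < b := lt_trans (by positivity) hb
    rcases lt_or_ge (q^2*r) b with h1 | h1
    · exact ⟨0, b, by simp, h.CCDD hq h1 hC⟩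
    · have e : b = q^2*(b/q^2) := by field_simp
      have h2 : b/q^2 ≤ r := by rw [div_le_iff₀ qq]; linarith
      have h3 : CC A (b/q^2) := h.CCunscale hq (div_nonneg hb0.le qq.le) h2 (by rw [← e]; exact hC)
      obtain ⟨j, a, h4, h5⟩ := ih (b/q^2) (by
        rw [lt_div_iff₀ qq]
        rw [pow_succ] at hb
        linarith) h3
      refine ⟨j+1, a, ?_, h5⟩
      rw [e, h4]; ring

/-- Part 2 -/
theorem CC_iff (h : Cvl q r A) (hq : q < 1/3) (b : ℝ) : (0 ≤ b ∧ CC A b) ↔
    b = 0 ∨ ∃ (j : ℕ) (a : ℝ), b = q^(2*j)*a ∧ DD q r {v | VV r A v} a := by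
  obtain ⟨q0, q1, r0, r1, e1, e2, e3, e4, e5, e6, e7⟩ := h.ineqs
  constructor
  · rintro ⟨hb0, hC⟩
    rcases eq_or_lt_of_le hb0 with h0 | h0
    · exact Or.inl h0.symm
    · right
      obtain ⟨k, hk⟩ := exists_pow_lt_of_lt_one (div_pos h0 r0) (show q^2 < 1 by nlinarith)
      rw [lt_div_iff₀ r0] at hk
      exact h.CC_iff1 hq k b hk hC
  · rintro (rfl | ⟨j, a, rfl, ha⟩)
    · refine ⟨le_rfl, ?_⟩
      intro x hx
      left; simpa using hx
    · obtain ⟨h1, h2⟩ := h.DDCC hq ha
      exact ⟨mul_nonneg (pow_nonneg q0.le _) h1, h.CCpow hq h1 h2 j⟩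

/-! ### the set `V` -/

theorem Vzero (h : Cvl q r A) : VV r A 0 := by
  refine ⟨le_rfl, h.r0.le, ?_⟩
  intro s h1 h2
  left
  have : s = 0 := le_antisymm h2 h1
  rw [this]; exact h.zero

theorem V_eqn (h : Cvl q r A) (hq : q < 1/3) : {v | VV r A v} = Phi q r {v | VV r A v} := by
  obtain ⟨q0, q1, r0, r1, e1, e2, e3, e4, e5, e6, e7⟩ := h.ineqs
  have qq := h.qq
  have hr2 := h.half hq
  have hf1 : q*r + q^2*r ≤ q := by nlinarith
  have hf2 : 2*(q*r) < q := by nlinarith
  ext v
  rw [mem_Phi]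
  constructor
  · intro hv
    have hv : VV r A v := hv
    rcases le_or_gt v (q^2*r) with h1 | h1
    · right; left
      have hle : v/q^2 ≤ r := by rw [div_le_iff₀ qq]; linarith
      refine ⟨v/q^2, ?_, by field_simp⟩
      show VV r A (v/q^2)
      rw [← h.Vscale hle]
      have : q^2*(v/q^2) = v := by field_simp
      rwa [this]
    · obtain ⟨a, b⟩ := h.V1 hv h1
      rcases lt_or_ge v (2*(q*r)) with h2 | h2
      · right; right; left
        exact ⟨_, h.Vref hv (by linarith) a h2.le, by field_simp; ring⟩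
      rcases le_or_gt v q with h3 | h3
      · left; exact ⟨h2, h3⟩
      · right; right; right
        exact ⟨_, h.Vup hv h3.le b, by field_simp; ring⟩
  · rintro (⟨h1, h2⟩ | ⟨u, hu, rfl⟩ | ⟨u, hu, rfl⟩ | ⟨u, hu, rfl⟩)
    · refine ⟨by linarith, by linarith, ?_⟩
      intro s hs0 hs1
      rcases le_or_gt (q*r) s with h3 | h3
      · left; exact h.mid h3 (by linarith)
      · right; exact h.mid (by linarith) (by linarith)
    · have hu : VV r A u := hu
      exact (h.Vscale hu.2.1).2 hu
    · have hu : VV r A u := hu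
      have huV := (h.Vscale hu.2.1).2 hu
      have hu1 : q^2*u ≤ q^2*r := by nlinarith [hu.2.1]
      have hu0 : 0 ≤ q^2*u := huV.1
      refine ⟨by linarith, by linarith, ?_⟩
      intro s hs0 hs1
      rcases le_or_gt (q*r) s with h3 | h3
      · left; exact h.mid h3 (by linarith)
      rcases le_or_gt (q*r) (2*(q*r) - q^2*u - s) with h4 | h4
      · right; exact h.mid h4 (by linarith)
      · rcases huV.2.2 (q*r - s) (by linarith) (by linarith) with h5 | h5
        · left
          have := h.symr1 h5 (by linarith)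
          simpa using this
        · right
          have := h.symr1 h5 (by linarith)
          have e : q*r - (q^2*u - (q*r - s)) = 2*(q*r) - q^2*u - s := by ring
          rwa [e] at this
    · have hu : VV r A u := hu
      have huV := (h.Vscale hu.2.1).2 hu
      have hu1 : q^2*u ≤ q^2*r := by nlinarith [hu.2.1]
      have hu0 : 0 ≤ q^2*u := huV.1
      refine ⟨by linarith, by linarith, ?_⟩
      intro s hs0 hs1
      rcases le_or_gt s (q^2*u) with h3 | h3
      · rcases huV.2.2 s hs0 h3 with h4 | h4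
        · left; exact h4
        · right
          rw [← h.trq (by linarith) (by linarith)] at h4
          have e : q + (q^2*u - s) = q + q^2*u - s := by ring
          rwa [e] at h4
      rcases le_or_gt q s with h4 | h4
      · rcases huV.2.2 (s - q) (by linarith) (by linarith) with h5 | h5
        · left
          rw [← h.trq (by linarith) (by linarith)] at h5
          simpa using h5
        · right
          have e : q^2*u - (s - q) = q + q^2*u - s := by ring
          rwa [e] at h5
      rcases le_or_gt (q*r) s with h5 | h5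
      · left; exact h.mid h5 h4.le
      · right; exact h.mid (by linarith) (by linarith)

theorem V_closed (h : Cvl q r A) : IsClosed {v | VV r A v} := by
  have e : {v | VV r A v} = Set.Icc 0 r ∩ ⋂ t ∈ Set.Icc (0:ℝ) 1, ({v | t*v ∈ A} ∪ {v | (1-t)*v ∈ A}) := by
    ext v
    simp only [Set.mem_ofPred_eq, Set.mem_inter_iff, Set.mem_iInter, Set.mem_union]
    constructor
    · rintro ⟨h1, h2, h3⟩
      refine ⟨⟨h1, h2⟩, ?_⟩
      rintro t ⟨ht0, ht1⟩
      have := h3 (t*v) (mul_nonneg ht0 h1) (by nlinarith)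
      have e : v - t*v = (1-t)*v := by ring
      rwa [e] at this
    · rintro ⟨⟨h1, h2⟩, h3⟩
      refine ⟨h1, h2, ?_⟩
      intro s hs0 hs1
      rcases eq_or_lt_of_le h1 with h0 | h0
      · left
        have : s = 0 := by linarith
        rw [this]; exact h.zero
      have hsv : s/v ≤ 1 := by rw [div_le_one h0]; exact hs1
      have := h3 (s/v) ⟨div_nonneg hs0 h1, hsv⟩
      have e1 : s/v*v = s := by field_simp
      have e2 : (1-s/v)*v = v - s := by field_simp
      rwa [e1, e2] at this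
  rw [e]
  apply isClosed_Icc.inter
  apply isClosed_biInter
  intro t _
  apply IsClosed.union
  · exact h.closed.preimage (continuous_const.mul continuous_id)
  · exact h.closed.preimage (continuous_const.mul continuous_id)

theorem V_compact (h : Cvl q r A) : IsCompact {v | VV r A v} :=
  (isCompact_Icc (a := (0:ℝ)) (b := r)).of_isClosed_subset h.V_closed (fun _ hv => ⟨hv.1, hv.2.1⟩)

end Cvl

/-- one inclusion of the uniqueness -/
theorem Phi_subset (hq0 : 0 < q) (hq1 : q < 1) {K L : Set ℝ} (hK : IsCompact K) (hL : IsCompact L)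
    (hLne : L.Nonempty) (eK : K = Phi q r K) (eL : L = Phi q r L) : K ⊆ L := by
  obtain ⟨D, hD⟩ := (hK.union hL).isBounded.exists_norm_le
  have hq2 : q^2 < 1 := by nlinarith
  have qq : 0 < q^2 := by positivity
  obtain ⟨y0, hy0⟩ := hLne
  have hD0 : 0 ≤ D := le_trans (norm_nonneg _) (hD y0 (Or.inr hy0))
  have key : ∀ n : ℕ, ∀ x ∈ K, ∃ y ∈ L, |x - y| ≤ (q^2)^n*(2*D) := by
    intro n
    induction n with
    | zero =>
      intro x hx
      refine ⟨y0, hy0, ?_⟩
      have h1 := hD x (Or.inl hx)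
      have h2 := hD y0 (Or.inr hy0)
      rw [Real.norm_eq_abs] at h1 h2
      have := abs_sub x y0
      simp
      linarith
    | succ n ih =>
      intro x hx
      have hstep : (q^2)^(n+1)*(2*D) = q^2*((q^2)^n*(2*D)) := by ring
      rw [eK, mem_Phi] at hx
      rcases hx with h1 | ⟨u, hu, rfl⟩ | ⟨u, hu, rfl⟩ | ⟨u, hu, rfl⟩
      · refine ⟨x, ?_, by simp; positivity⟩
        rw [eL, mem_Phi]; exact Or.inl h1
      · obtain ⟨y, hy, hxy⟩ := ih u hu
        refine ⟨q^2*y, by rw [eL, mem_Phi]; exact Or.inr (Or.inl ⟨y, hy, rfl⟩), ?_⟩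
        have e : q^2*u - q^2*y = q^2*(u-y) := by ring
        rw [e, abs_mul, abs_of_pos qq, hstep]
        exact mul_le_mul_of_nonneg_left hxy qq.le
      · obtain ⟨y, hy, hxy⟩ := ih u hu
        refine ⟨2*(q*r) - q^2*y, by rw [eL, mem_Phi]; exact Or.inr (Or.inr (Or.inl ⟨y, hy, rfl⟩)), ?_⟩
        have e : 2*(q*r) - q^2*u - (2*(q*r) - q^2*y) = -(q^2*(u-y)) := by ring
        rw [e, abs_neg, abs_mul, abs_of_pos qq, hstep]
        exact mul_le_mul_of_nonneg_left hxy qq.le
      · obtain ⟨y, hy, hxy⟩ := ih u hu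
        refine ⟨q + q^2*y, by rw [eL, mem_Phi]; exact Or.inr (Or.inr (Or.inr ⟨y, hy, rfl⟩)), ?_⟩
        have e : q + q^2*u - (q + q^2*y) = q^2*(u-y) := by ring
        rw [e, abs_mul, abs_of_pos qq, hstep]
        exact mul_le_mul_of_nonneg_left hxy qq.le
  intro x hx
  rw [← hL.isClosed.closure_eq, Metric.mem_closure_iff]
  intro ε hε
  have h2D : 0 < 2*D + 1 := by linarith
  obtain ⟨n, hn⟩ := exists_pow_lt_of_lt_one (div_pos hε h2D) hq2
  rw [lt_div_iff₀ h2D] at hn
  obtain ⟨y, hy, hxy⟩ := key n x hx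
  refine ⟨y, hy, ?_⟩
  rw [Real.dist_eq]
  have : 0 < (q^2)^n := by positivity
  nlinarith

theorem Phi_unique (hq0 : 0 < q) (hq1 : q < 1) {K L : Set ℝ} (hK : IsCompact K) (hL : IsCompact L)
    (hKne : K.Nonempty) (hLne : L.Nonempty) (eK : K = Phi q r K) (eL : L = Phi q r L) : K = L :=
  Set.Subset.antisymm (Phi_subset hq0 hq1 hK hL hLne eK eL) (Phi_subset hq0 hq1 hL hK hKne eL eK)

end R261.CD
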