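import Pool.Agent.R261.CD.Basic

namespace R261.CD

variable {q r : ℝ} {A : Set ℝ}

/-- shift-invariance property -/
def SS (r : ℝ) (A : Set ℝ) (g : ℝ) : Prop := g ∈ A ∧ ∀ a ∈ A, g + a ≤ r → g + a ∈ A

/-- covering property -/
def VV (r : ℝ) (A : Set ℝ) (v : ℝ) : Prop := 0 ≤ v ∧ v ≤ r ∧ ∀ s, 0 ≤ s → s ≤ v → (s ∈ A ∨ v - s ∈ A)

namespace Cvl

theorem S1 (h : Cvl q r A) {g : ℝ} (hg : SS r A g) : g = 0 ∨ q ≤ g := by
  obtain ⟨q0, q1, r0, r1, e1, e2, e3, e4, e5, e6, e7⟩ := h.ineqs
  have qq := h.qq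
  by_contra hc
  push Not at hc
  obtain ⟨hg0, hgq⟩ := hc
  have hgpos : 0 < g := lt_of_le_of_ne (h.sub g hg.1).1 (Ne.symm hg0)
  rcases lt_or_ge g (q*r) with hl | hl
  · have hA : ∀ x, q*r + g < x → x < q + g → x ∈ A := by
      intro x hx1 hx2
      have := hg.2 (x - g) (h.mid (by linarith) (by linarith)) (by linarith)
      simpa using this
    rcases h.comp (by linarith) hA with ⟨a, b⟩ | ⟨a, b⟩
    · linarith
    · nlinarith
  · obtain ⟨x, hx1, hx2, hx3⟩ := h.I0c (e := q*r + g) (by linarith)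
    apply hx3
    have := hg.2 (x - g) (h.mid (by linarith) (by linarith)) (by linarith)
    simpa using this

theorem S2 (h : Cvl q r A) {g : ℝ} (hg : SS r A g) (hgq : q ≤ g) :
    g = q ∨ ∃ b, SS r A b ∧ g = q + q^2 + q^2*b := by
  obtain ⟨q0, q1, r0, r1, e1, e2, e3, e4, e5, e6, e7⟩ := h.ineqs
  have qq := h.qq
  have hgr := (h.sub g hg.1).2
  set b := g - q with hb
  have hb0 : 0 ≤ b := by linarith
  have hbr : b ≤ q*r := by linarith
  have hbA : b ∈ A := by
    rw [← h.trq hb0 hbr]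
    have : q + b = g := by rw [hb]; ring
    rw [this]; exact hg.1
  have hS' : ∀ a ∈ A, a + b ≤ q*r → a + b ∈ A := by
    intro a ha hab
    have ha0 := (h.sub a ha).1
    have h1 := hg.2 a ha (by linarith)
    have h2 : g + a = q + (a + b) := by rw [hb]; ring
    rw [h2, h.trq (by linarith) hab] at h1
    exact h1
  rcases lt_or_ge b (q^2) with hlt | hge
  · have hbr2 : b ≤ q^2*r := by
      by_contra hc
      push Not at hc
      exact h.gap1 hc hlt hbA
    set b' := b/q^2 with hb'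
    have hbb : b = q^2*b' := by rw [hb']; field_simp
    have hb'0 : 0 ≤ b' := div_nonneg hb0 qq.le
    have hb'r : b' ≤ r := by rw [hb', div_le_iff₀ qq]; linarith
    have hb'A : b' ∈ A := by rw [← h.piece0 hb'r, ← hbb]; exact hbA
    have hSb : SS r A b' := by
      refine ⟨hb'A, ?_⟩
      intro a ha hab
      have ha0 := h.sub a ha
      have h3 : q^2*(a + b') ≤ q^2*r := by nlinarith
      have h1 := hS' (q^2*a) ((h.piece0 ha0.2).2 ha) (by rw [hbb]; linarith)
      have h2 : q^2*a + b = q^2*(b' + a) := by rw [hbb]; ring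
      rw [h2, h.piece0 hab] at h1
      exact h1
    rcases h.S1 hSb with h0 | h0
    · left
      have : b = 0 := by rw [hbb, h0]; ring
      linarith
    · exfalso
      have hA : ∀ x, q*r + b' - 1 < x → x < q + b' - 1 → x ∈ A := by
        intro x hx1 hx2
        have ha : x + 1 - b' ∈ A := h.mid (by linarith) (by linarith)
        have hle : q^2*(x+1) ≤ q*r := by
          have : q^2*(x+1) ≤ q^2*(q + b') := by nlinarith
          have : q^2*b' ≤ q^2*r := by nlinarith
          nlinarith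
        have h1 := hS' (q^2*(x+1-b')) ((h.piece0 (h.sub _ ha).2).2 ha) (by
          rw [hbb]; linarith)
        have h2 : q^2*(x+1-b') + b = q^2 + q^2*x := by rw [hbb]; ring
        rw [h2] at h1
        have hxr : x ≤ r := by linarith
        have hx0 : 0 ≤ x := by
          by_contra hn
          push Not at hn
          refine h.gap1 ?_ ?_ h1
          · nlinarith
          · nlinarith
        exact (h.piece1 hx0 hxr).1 h1
      rcases h.comp (by linarith) hA with ⟨a, b⟩ | ⟨a, b⟩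
      · linarith
      · nlinarith
  · right
    set b' := (b - q^2)/q^2 with hb'
    have hbb : b = q^2 + q^2*b' := by rw [hb']; field_simp; ring
    have hb'0 : 0 ≤ b' := div_nonneg (by linarith) qq.le
    have hb'r : b' ≤ r := by rw [hb', div_le_iff₀ qq]; linarith
    have hb'A : b' ∈ A := by rw [← h.piece1 hb'0 hb'r, ← hbb]; exact hbA
    refine ⟨b', ⟨hb'A, ?_⟩, by linarith⟩
    intro a ha hab
    have ha0 := h.sub a ha
    have h3 : q^2*(a + b') ≤ q^2*r := by nlinarith
    have h1 := hS' (q^2*a) ((h.piece0 ha0.2).2 ha) (by rw [hbb]; linarith)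
    have h2 : q^2*a + b = q^2 + q^2*(b' + a) := by rw [hbb]; ring
    rw [h2, h.piece1 (by linarith) hab] at h1
    exact h1

theorem S3 (h : Cvl q r A) (k : ℕ) : ∀ g, SS r A g → (q^2)^k*r < r - g → ∃ n : ℕ, g = r*(1-q^n) := by
  obtain ⟨q0, q1, r0, r1, e1, e2, e3, e4, e5, e6, e7⟩ := h.ineqs
  have qq := h.qq
  induction k with
  | zero =>
    intro g hg hk
    have := (h.sub g hg.1).1
    exfalso; simp at hk; linarith
  | succ k ih =>
    intro g hg hk
    rcases h.S1 hg with h0 | h0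
    · exact ⟨0, by rw [h0]; simp⟩
    rcases h.S2 hg h0 with h1 | ⟨b, hb, h1⟩
    · exact ⟨1, by rw [h1]; linarith⟩
    · have h2 : r - g = q^2*(r-b) := by rw [h1]; linarith
      rw [h2, pow_succ] at hk
      have h3 : (q^2)^k*r < r - b := by
        by_contra hn
        push Not at hn
        nlinarith
      obtain ⟨n, hn⟩ := ih b hb h3
      refine ⟨n+2, ?_⟩
      have h4 : g = r - q^2*(r-b) := by linarith
      rw [h4, hn]; ring

/-- classification -/
theorem S4 (h : Cvl q r A) {g : ℝ} (hg : SS r A g) : g = r ∨ ∃ n : ℕ, g = r*(1-q^n) := by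
  obtain ⟨q0, q1, r0, r1, e1, e2, e3, e4, e5, e6, e7⟩ := h.ineqs
  rcases eq_or_lt_of_le (h.sub g hg.1).2 with h0 | h0
  · exact Or.inl h0
  · right
    obtain ⟨k, hk⟩ := exists_pow_lt_of_lt_one (div_pos (sub_pos.2 h0) r0) (show q^2 < 1 by nlinarith)
    rw [lt_div_iff₀ r0] at hk
    exact h.S3 k g hg hk

theorem S5 (h : Cvl q r A) (n : ℕ) : SS r A (r*(1-q^n)) ∧ SS r A (r*(1-q^(n+1))) := by
  obtain ⟨q0, q1, r0, r1, e1, e2, e3, e4, e5, e6, e7⟩ := h.ineqs
  have qq := h.qq
  induction n with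
  | zero =>
    constructor
    · simp only [pow_zero, sub_self, mul_zero]
      exact ⟨h.zero, fun a ha _ => by simpa using ha⟩
    · have : r*(1-q^(0+1)) = q := by simp; linarith
      rw [this]
      refine ⟨h.piecemem.2.2.1, fun a ha har => ?_⟩
      exact (h.trq (h.sub a ha).1 (by linarith)).2 ha
  | succ n ih =>
    refine ⟨ih.2, ?_⟩
    set b := r*(1-q^n) with hb
    have e : r*(1-q^(n+1+1)) = q + q^2 + q^2*b := by
      have : r = q + q^2 + q^2*r := by linarith
      calc r*(1-q^(n+1+1)) = r - q^2*(r*q^n) := by ring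
        _ = (q + q^2 + q^2*r) - q^2*(r*q^n) := by rw [← this]
        _ = _ := by rw [hb]; ring
    rw [e]
    have hbs := h.sub b ih.1.1
    refine ⟨(h.piece (c := q+q^2) (by simp) hbs.1 hbs.2).2 ih.1.1, ?_⟩
    intro a ha har
    have ha0 := h.sub a ha
    have h1 : a ≤ q^2*(r-b) := by linarith
    have h2 : a/q^2 ≤ r - b := by rw [div_le_iff₀ qq]; linarith
    have h3 : 0 ≤ a/q^2 := div_nonneg ha0.1 qq.le
    have h4 : a = q^2*(a/q^2) := by field_simp
    have h5 : a/q^2 ∈ A := by rw [← h.piece0 (by linarith), ← h4]; exact ha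
    have h6 := ih.1.2 _ h5 (by linarith)
    have h7 : q + q^2 + q^2*b + a = (q + q^2) + q^2*(b + a/q^2) := by
      nth_rw 1 [h4]; ring
    rw [h7]
    exact (h.piece (c := q+q^2) (by simp) (by linarith) (by linarith)).2 h6

/-! ### covering property -/

theorem Vscale (h : Cvl q r A) {v : ℝ} (hvr : v ≤ r) : VV r A (q^2*v) ↔ VV r A v := by
  obtain ⟨q0, q1, r0, r1, e1, e2, e3, e4, e5, e6, e7⟩ := h.ineqs
  have qq := h.qq
  constructor
  · rintro ⟨a, b, c⟩
    have hv0 : 0 ≤ v := by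
      by_contra hn
      push Not at hn
      nlinarith
    refine ⟨hv0, hvr, ?_⟩
    intro s hs0 hsv
    rcases c (q^2*s) (by positivity) (by nlinarith) with h1 | h1
    · left; exact (h.piece0 (by linarith)).1 h1
    · right
      have : q^2*v - q^2*s = q^2*(v-s) := by ring
      rw [this, h.piece0 (by linarith)] at h1
      exact h1
  · rintro ⟨a, b, c⟩
    refine ⟨by positivity, by nlinarith, ?_⟩
    intro s hs0 hsv
    have h4 : s = q^2*(s/q^2) := by field_simp
    have h3 : 0 ≤ s/q^2 := div_nonneg hs0 qq.le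
    have h2 : s/q^2 ≤ v := by rw [div_le_iff₀ qq]; linarith
    rcases c (s/q^2) h3 h2 with h1 | h1
    · left; rw [h4]; exact (h.piece0 (by linarith)).2 h1
    · right
      have : q^2*v - s = q^2*(v-s/q^2) := by
        nth_rw 1 [h4]; ring
      rw [this]
      exact (h.piece0 (by linarith)).2 h1

theorem V1 (h : Cvl q r A) {v : ℝ} (hv : VV r A v) (hvr : q^2*r < v) :
    q^2 + q*r ≤ v ∧ v ≤ q + q^2*r := by
  obtain ⟨q0, q1, r0, r1, e1, e2, e3, e4, e5, e6, e7⟩ := h.ineqs
  have qq := h.qq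
  obtain ⟨hv0, hv1, hv2⟩ := hv
  have hq2 : q^2 < v := by
    by_contra hn
    push Not at hn
    obtain ⟨x, hx0, hx1, hx2, hx3⟩ := h.I0 (sub_pos.2 hvr)
    rcases hv2 (v - x) (by linarith) (by linarith) with h1 | h1
    · exact h.gap1 (by linarith) (by linarith) h1
    · apply hx3; simpa using h1
  have hA : ∀ x, v - q^2 < x → x < v - q^2*r → x ∈ A := by
    intro x hx1 hx2
    rcases hv2 (v - x) (by linarith) (by linarith) with h1 | h1
    · exact absurd h1 (h.gap1 (by linarith) (by linarith))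
    · simpa using h1
  rcases h.comp (by linarith) hA with ⟨a, b⟩ | ⟨a, b⟩
  · exact ⟨by linarith, by linarith⟩
  · exfalso
    have : q^2*(q-q*r) < q*(q-q*r) := by nlinarith
    nlinarith

/-- upper child -/
theorem Vup (h : Cvl q r A) {v : ℝ} (hv : VV r A v) (hvq : q ≤ v) (hv2 : v ≤ q + q^2*r) :
    VV r A ((v-q)/q^2) := by
  obtain ⟨q0, q1, r0, r1, e1, e2, e3, e4, e5, e6, e7⟩ := h.ineqs
  have qq := h.qq
  have hle : (v-q)/q^2 ≤ r := by rw [div_le_iff₀ qq]; linarith
  rw [← h.Vscale hle]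
  have : q^2*((v-q)/q^2) = v - q := by field_simp
  rw [this]
  refine ⟨by linarith, by linarith, ?_⟩
  intro s hs0 hs1
  rcases hv.2.2 (q+s) (by linarith) (by linarith) with h1 | h1
  · left; exact (h.trq hs0 (by linarith)).1 h1
  · right
    have e : v - q - s = v - (q + s) := by ring
    rw [e]; exact h1

/-- reflected child -/
theorem Vref (h : Cvl q r A) {v : ℝ} (hv : VV r A v) (hv1 : q*r ≤ v) (hv2 : q^2 + q*r ≤ v)
    (hv3 : v ≤ 2*(q*r)) :
    VV r A ((2*(q*r)-v)/q^2) := by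
  obtain ⟨q0, q1, r0, r1, e1, e2, e3, e4, e5, e6, e7⟩ := h.ineqs
  have qq := h.qq
  have hle : (2*(q*r)-v)/q^2 ≤ r := by rw [div_le_iff₀ qq]; linarith
  rw [← h.Vscale hle]
  have : q^2*((2*(q*r)-v)/q^2) = 2*(q*r)-v := by field_simp
  rw [this]
  refine ⟨by linarith, by linarith, ?_⟩
  intro s hs0 hs1
  rcases hv.2.2 (q*r-s) (by linarith) (by linarith) with h1 | h1
  · left; exact (h.symr1' hs0 (by linarith)).1 h1
  · right
    have e : v - (q*r-s) = q*r - (2*(q*r)-v-s) := by ring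
    rw [e, h.symr1' (by linarith) (by linarith)] at h1
    exact h1

theorem V2a (h : Cvl q r A) (k : ℕ) : ∀ v, VV r A v → (q^2)^k*r < v → ∃ v', VV r A v' ∧ q^2*r < v' := by
  obtain ⟨q0, q1, r0, r1, e1, e2, e3, e4, e5, e6, e7⟩ := h.ineqs
  have qq := h.qq
  induction k with
  | zero => intro v hv hk; have := hv.2.1; simp at hk; linarith
  | succ k ih =>
    intro v hv hk
    rcases lt_or_ge (q^2*r) v with h1 | h1
    · exact ⟨v, hv, h1⟩
    · have hle : v/q^2 ≤ r := by rw [div_le_iff₀ qq]; linarith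
      refine ih (v/q^2) ?_ ?_
      · rw [← h.Vscale hle]
        have : q^2*(v/q^2) = v := by field_simp
        rwa [this]
      · rw [lt_div_iff₀ qq]
        rw [pow_succ] at hk
        linarith

theorem V2 (h : Cvl q r A) (hq : 0 < q^2+2*q-1) {v : ℝ} (hv : VV r A v) : v = 0 := by
  obtain ⟨q0, q1, r0, r1, e1, e2, e3, e4, e5, e6, e7⟩ := h.ineqs
  have qq := h.qq
  by_contra hne
  have hvp : 0 < v := lt_of_le_of_ne hv.1 (Ne.symm hne)
  obtain ⟨k, hk⟩ := exists_pow_lt_of_lt_one (div_pos hvp r0) (show q^2 < 1 by nlinarith)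
  rw [lt_div_iff₀ r0] at hk
  obtain ⟨v1, hv1, hv1r⟩ := h.V2a k v hv hk
  have hbdd : BddAbove {v | VV r A v} := ⟨r, fun x hx => hx.2.1⟩
  set m := sSup {v | VV r A v} with hm
  have hm1 : ∀ x, VV r A x → x ≤ m := fun x hx => le_csSup hbdd hx
  have hrr : 1 < q + r + q*r*0 + (q - q) ∨ True := Or.inr trivial
  -- r1 + q^2 > q
  have f1 : q < q^2 + q*r := by
    have : q + r > 1 := by
      by_contra hc
      push Not at hc
      nlinarith
    nlinarith
  have f2 : q + q^2*r ≤ 2*(q*r) := by linarith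
  have key : ∀ x, VV r A x → q^2*r < x → x ≤ q + q^2*m ∧ 2*(q*r) - q^2*m ≤ x := by
    intro x hx hxr
    obtain ⟨a, b⟩ := h.V1 hx hxr
    have u1 := hm1 _ (h.Vup hx (by linarith) b)
    have u2 := hm1 _ (h.Vref hx (by linarith) a (by linarith))
    rw [div_le_iff₀ qq] at u1 u2
    constructor <;> linarith
  have hm0 : 0 ≤ m := le_trans hv.1 (hm1 v hv)
  have h1 : m ≤ q + q^2*m := by
    apply csSup_le ⟨v, hv⟩
    intro x hx
    rcases lt_or_ge (q^2*r) x with h1 | h1
    · exact (key x hx h1).1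
    · have : 0 ≤ q^2*m := by positivity
      linarith
  have h2 : 2*(q*r) ≤ m + q^2*m := by
    have := (key v1 hv1 hv1r).2
    have := hm1 v1 hv1
    linarith
  -- m(1-q^2) ≤ q ; m (1+q^2) ≥ 2 q r
  have h3 : 2*(q*r)*(1-q^2) ≤ q*(1+q^2) := by
    have a1 : 2*(q*r)*(1-q^2) ≤ (m + q^2*m)*(1-q^2) := by
      apply mul_le_mul_of_nonneg_right h2; nlinarith
    have a2 : (m - q^2*m)*(1+q^2) ≤ q*(1+q^2) := by
      apply mul_le_mul_of_nonneg_right _ (by positivity); linarith
    nlinarith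
  have h4 : 2*r*(1-q^2) ≤ 1+q^2 := by
    by_contra hc
    push Not at hc
    nlinarith
  have h5 : r*(1-q) = q := by linarith
  have h6 : 2*q*(1+q) ≤ 1+q^2 := by
    have : 2*r*(1-q^2) = 2*(r*(1-q))*(1+q) := by ring
    rw [this, h5] at h4
    linarith
  nlinarith

end Cvl

end R261.CD
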